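import Mathlib

namespace Pool.Agent.H31.Cone

/-- Letters of the universal spine language. -/
inductive X | o (b : Bool) | c (b : Bool) | p | q
deriving DecidableEq, Fintype

/-- Spine closure: palindromic labels, with blocks `p u q`, `u ∈ C`, attached on both sides. -/
inductive Sp (C : Set (List X)) : List X → Prop
  | nil : Sp C []
  | lab (b : Bool) {w : List X} : Sp C w → Sp C (X.o b :: (w ++ [X.c b]))
  | left {u w : List X} : u ∈ C → Sp C w → Sp C (X.p :: (u ++ X.q :: w))
  | right {u w : List X} : Sp C w → u ∈ C → Sp C (w ++ X.p :: (u ++ [X.q]))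

theorem Sp.mono {C D : Set (List X)} (h : C ⊆ D) {w : List X} (hw : Sp C w) : Sp D w := by
  induction hw with
  | nil => exact Sp.nil
  | lab b _ ih => exact Sp.lab b ih
  | left hu _ ih => exact Sp.left (h hu) ih
  | right _ hu ih => exact Sp.right ih (h hu)

/-- The levels of the universal language. -/
def Sl : ℕ → Set (List X)
  | 0 => {w | Sp ∅ w}
  | k + 1 => {w | Sp (Sl k) w}

theorem Sl_succ (k : ℕ) : Sl k ⊆ Sl (k + 1) := by
  induction k with
  | zero => intro w hw; exact Sp.mono (Set.empty_subset _) hw
  | succ k ih => intro w hw; exact Sp.mono ih hw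

theorem Sl_mono {j k : ℕ} (h : j ≤ k) : Sl j ⊆ Sl k := by
  induction h with
  | refl => exact subset_rfl
  | step _ ih => exact ih.trans (Sl_succ _)

/-- The universal language. -/
def SS : Set (List X) := {w | ∃ k, w ∈ Sl k}

/-- One step of the depth counter with bound `k`. -/
def sd (k : ℕ) (δ : Option ℕ) : X → Option ℕ
  | X.o _ => δ
  | X.c _ => δ
  | X.p => match δ with
    | none => none
    | some d => if d < k then some (d + 1) else none
  | X.q => match δ with
    | none => none
    | some 0 => none
    | some (d + 1) => some d

/-- The depth after reading a word, `none` if the depth has left the interval `[0,k]`. -/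
def dp (k : ℕ) (δ : Option ℕ) (w : List X) : Option ℕ := w.foldl (sd k) δ

@[simp] theorem dp_nil (k : ℕ) (δ : Option ℕ) : dp k δ [] = δ := rfl

@[simp] theorem dp_cons (k : ℕ) (δ : Option ℕ) (x : X) (w : List X) :
    dp k δ (x :: w) = dp k (sd k δ x) w := rfl

@[simp] theorem dp_append (k : ℕ) (δ : Option ℕ) (u v : List X) :
    dp k δ (u ++ v) = dp k (dp k δ u) v := by simp [dp]

@[simp] theorem sd_none (k : ℕ) (x : X) : sd k none x = none := by cases x <;> rfl

@[simp] theorem dp_none (k : ℕ) (w : List X) : dp k none w = none := by
  induction w with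
  | nil => rfl
  | cons x w ih => simp [ih]

@[simp] theorem sd_o (k : ℕ) (δ : Option ℕ) (b : Bool) : sd k δ (X.o b) = δ := rfl
@[simp] theorem sd_c (k : ℕ) (δ : Option ℕ) (b : Bool) : sd k δ (X.c b) = δ := rfl
theorem sd_p (k d : ℕ) : sd k (some d) X.p = if d < k then some (d + 1) else none := rfl
@[simp] theorem sd_q0 (k : ℕ) : sd k (some 0) X.q = none := rfl
@[simp] theorem sd_q (k d : ℕ) : sd k (some (d + 1)) X.q = some d := rfl

theorem sd_le {k d e : ℕ} {x : X} (hd : d ≤ k) (h : sd k (some d) x = some e) : e ≤ k := by
  cases x with
  | o b => simp at h; omega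
  | c b => simp at h; omega
  | p =>
    rw [sd_p] at h
    split_ifs at h with h1
    simp at h; omega
  | q =>
    cases d with
    | zero => simp at h
    | succ d => simp at h; omega

theorem dp_le {k d e : ℕ} {w : List X} (hd : d ≤ k) (h : dp k (some d) w = some e) : e ≤ k := by
  induction w generalizing d with
  | nil => simp at h; omega
  | cons x w ih =>
    rw [dp_cons] at h
    cases h1 : sd k (some d) x with
    | none => simp [h1] at h
    | some d1 => exact ih (sd_le hd h1) (h1 ▸ h)

theorem sd_mono {k k' d e : ℕ} {x : X} (hk : k ≤ k') (h : sd k (some d) x = some e) :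
    sd k' (some d) x = some e := by
  cases x with
  | o b => simpa using h
  | c b => simpa using h
  | p =>
    rw [sd_p] at h ⊢
    split_ifs at h with h1
    rw [if_pos (by omega)]
    exact h
  | q =>
    cases d with
    | zero => simp at h
    | succ d => simpa using h

theorem dp_mono {k k' d e : ℕ} {w : List X} (hk : k ≤ k') (h : dp k (some d) w = some e) :
    dp k' (some d) w = some e := by
  induction w generalizing d with
  | nil => simpa using h
  | cons x w ih =>
    rw [dp_cons] at h ⊢
    cases h1 : sd k (some d) x with
    | none => simp [h1] at h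
    | some d1 =>
      rw [h1] at h
      rw [sd_mono hk h1]
      exact ih h

/-- The depth of words of level `j` stays at most `j`. -/
theorem dp_Sl (j : ℕ) : ∀ (k d : ℕ) (w : List X), w ∈ Sl j → d + j ≤ k →
    dp k (some d) w = some d := by
  induction j with
  | zero =>
    intro k d w hw _
    have hw' : Sp ∅ w := hw
    clear hw
    induction hw' with
    | nil => rfl
    | lab b _ ih => simp [ih]
    | left hu _ _ => exact absurd hu (by simp)
    | right _ hu _ => exact absurd hu (by simp)
  | succ j ihj =>
    intro k d w hw hk
    have hw' : Sp (Sl j) w := hw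
    clear hw
    induction hw' with
    | nil => rfl
    | lab b _ ih => simp [ih]
    | left hu _ ih =>
      have h1 := ihj k (d + 1) _ hu (by omega)
      simp [sd_p, show d < k by omega, h1, ih]
    | right _ hu ih =>
      have h1 := ihj k (d + 1) _ hu (by omega)
      simp [sd_p, show d < k by omega, h1, ih]

/-- Words of the universal language whose depth stays in `[0,k]` are of level `k`. -/
theorem Sl_of_dp (j : ℕ) : ∀ (k d e : ℕ) (w : List X), w ∈ Sl j → d ≤ k →
    dp k (some d) w = some e → e = d ∧ w ∈ Sl (k - d) := by
  induction j with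
  | zero =>
    intro k d e w hw hd h
    have h1 := dp_Sl 0 k d w hw (by omega)
    rw [h1] at h
    exact ⟨(Option.some.inj h).symm, Sl_mono (Nat.zero_le _) hw⟩
  | succ j ihj =>
    intro k d e w hw hd h
    have hw' : Sp (Sl j) w := hw
    clear hw
    have key : ∀ {u : List X} {d1 : ℕ}, u ∈ Sl j → dp k (sd k (some d) X.p) u = some d1 →
        d < k ∧ d1 = d + 1 ∧ u ∈ Sl (k - d - 1) := by
      intro u d1 hu h
      rw [sd_p] at h
      split_ifs at h with h1
      · have := ihj k (d + 1) d1 u hu (by omega) h
        exact ⟨h1, this.1, by rw [show k - d - 1 = k - (d + 1) by omega]; exact this.2⟩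
      · simp at h
    induction hw' generalizing e with
    | nil => exact ⟨(Option.some.inj h).symm, Sl_mono (Nat.zero_le _) Sp.nil⟩
    | @lab b w _ ih =>
      simp only [dp_cons, sd_o, dp_append, dp_nil, sd_c] at h
      obtain ⟨h1, h2⟩ := ih _ h
      refine ⟨h1, ?_⟩
      cases hkd : k - d with
      | zero => rw [hkd] at h2; exact Sp.lab b h2
      | succ m => rw [hkd] at h2; exact Sp.lab b h2
    | @left u w hu _ ih =>
      rw [dp_cons, dp_append, dp_cons] at h
      cases h1 : dp k (sd k (some d) X.p) u with
      | none => rw [h1] at h; simp at h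
      | some d1 =>
        obtain ⟨hlt, rfl, hu'⟩ := key hu h1
        rw [h1, sd_q] at h
        obtain ⟨h2, h3⟩ := ih _ h
        refine ⟨h2, ?_⟩
        have e1 : k - d = (k - d - 1) + 1 := by omega
        rw [e1] at h3 ⊢
        exact Sp.left hu' h3
    | @right u w _ hu ih =>
      rw [dp_append, dp_cons, dp_append, dp_cons, dp_nil] at h
      cases h0 : dp k (some d) w with
      | none => rw [h0] at h; simp at h
      | some d0 =>
        obtain ⟨rfl, h3⟩ := ih _ h0
        rw [h0] at h
        cases h1 : dp k (sd k (some d0) X.p) u with
        | none => rw [h1] at h; simp at h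
        | some d1 =>
          obtain ⟨hlt, rfl, hu'⟩ := key hu h1
          rw [h1, sd_q] at h
          refine ⟨(Option.some.inj h).symm, ?_⟩
          have e1 : k - d0 = (k - d0 - 1) + 1 := by omega
          rw [e1] at h3 ⊢
          exact Sp.right h3 hu'

/-- The language `L`: words `t^k w` with `w` in the universal language, or such that the depth of
`w` leaves the interval `[0,k]`. The letter `t` is `none`. -/
def LL : Language (Option X) :=
  {z | ∃ (k : ℕ) (w : List X), z = List.replicate k none ++ w.map some ∧
    (w ∈ SS ∨ dp k (some 0) w = none)}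

theorem split_unique {k k' : ℕ} {w w' : List X}
    (h : List.replicate k (none : Option X) ++ w.map some =
      List.replicate k' none ++ w'.map some) : k = k' ∧ w = w' := by
  induction k generalizing k' with
  | zero =>
    cases k' with
    | zero =>
      refine ⟨rfl, ?_⟩
      simp only [List.replicate_zero, List.nil_append] at h
      exact List.map_injective_iff.2 (Option.some_injective _) h
    | succ k' =>
      exfalso
      cases w with
      | nil => simp [List.replicate_succ] at h
      | cons x w => simp [List.replicate_succ] at h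
  | succ k ih =>
    cases k' with
    | zero =>
      exfalso
      cases w' with
      | nil => simp [List.replicate_succ] at h
      | cons x w => simp [List.replicate_succ] at h
    | succ k' =>
      simp only [List.replicate_succ, List.cons_append, List.cons.injEq, true_and] at h
      obtain ⟨h1, h2⟩ := ih h
      exact ⟨by omega, h2⟩

theorem mem_LL {k : ℕ} {w : List X} :
    List.replicate k none ++ w.map some ∈ LL ↔ (w ∈ SS ∨ dp k (some 0) w = none) := by
  constructor
  · rintro ⟨k', w', h, h'⟩
    obtain ⟨rfl, rfl⟩ := split_unique h
    exact h'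
  · intro h
    exact ⟨k, w, rfl, h⟩

theorem mem_LL_mono {k k' : ℕ} (hk : k' ≤ k) {w : List X}
    (h : List.replicate k none ++ w.map some ∈ LL) :
    List.replicate k' none ++ w.map some ∈ LL := by
  rw [mem_LL] at h ⊢
  rcases h with h | h
  · exact Or.inl h
  · right
    cases h1 : dp k' (some 0) w with
    | none => rfl
    | some e => rw [dp_mono hk h1] at h; simp at h

end Pool.Agent.H31.Cone
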