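import Mathlib

namespace Pool.Agent.H31.Cone

/-- Output alphabet of the witness language. -/
inductive Y | pl | ql | lo | lc | ro | rc | e
deriving DecidableEq, Fintype

/-- Stack symbols. -/
inductive Bk | P | L | R
deriving DecidableEq

/-- One step of the stack reader. -/
def stp (s : List Bk) : Y → Option (List Bk)
  | Y.pl => some (Bk.P :: s)
  | Y.lo => some (Bk.L :: s)
  | Y.ro => some (Bk.R :: s)
  | Y.e => some s
  | Y.ql => match s with
    | Bk.P :: t => some t
    | _ => none
  | Y.lc => match s with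
    | Bk.L :: t => some t
    | _ => none
  | Y.rc => match s with
    | Bk.R :: t => some t
    | _ => none

/-- The stack reader. -/
def rn : List Y → List Bk → Option (List Bk)
  | [], s => some s
  | a :: w, s => (stp s a).bind (rn w)

theorem rn_append (u v : List Y) (s : List Bk) : rn (u ++ v) s = (rn u s).bind (rn v) := by
  induction u generalizing s with
  | nil => simp [rn]
  | cons a u ih =>
    simp only [List.cons_append, rn]
    cases h : stp s a with
    | none => simp
    | some t => simp [ih]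

/-- A word that can be read from some stack. -/
def Good (w : List Y) : Prop := ∃ s s', rn w s = some s'

theorem Good.factor {a b c : List Y} (h : Good (a ++ b ++ c)) : Good b := by
  obtain ⟨s, s', h⟩ := h
  rw [rn_append, rn_append] at h
  cases h1 : rn a s with
  | none => simp [h1] at h
  | some s1 =>
    simp only [h1, Option.bind_some] at h
    cases h2 : rn b s1 with
    | none => simp [h2] at h
    | some s2 => exact ⟨s1, s2, h2⟩

theorem Good.of_infix {b w : List Y} (hb : b <:+: w) (h : Good w) : Good b := by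
  obtain ⟨a, c, rfl⟩ := hb
  exact h.factor

/-- Complete binary tree words. -/
def tr : ℕ → List Y
  | 0 => [Y.e]
  | h + 1 => Y.lo :: (tr h ++ Y.lc :: Y.ro :: (tr h ++ [Y.rc]))

theorem rn_tr (h : ℕ) (s : List Bk) : rn (tr h) s = some s := by
  induction h generalizing s with
  | zero => simp [tr, rn, stp]
  | succ h ih => simp [tr, rn, stp, rn_append, ih]

theorem tr_ne_nil (h : ℕ) : tr h ≠ [] := by
  cases h <;> simp [tr]

theorem tr_length (h : ℕ) (hh : 1 ≤ h) : 2 ≤ (tr h).length := by
  cases h with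
  | zero => omega
  | succ h => simp [tr]; omega

theorem tr_infix_succ (h : ℕ) : tr h <:+: tr (h + 1) :=
  ⟨[Y.lo], Y.lc :: Y.ro :: (tr h ++ [Y.rc]), by simp [tr]⟩

theorem tr_infix_of_le {h h' : ℕ} (hh : h ≤ h') : tr h <:+: tr h' := by
  induction hh with
  | refl => exact List.infix_refl _
  | step _ ih => exact ih.trans (tr_infix_succ _)

/-- If a tree word of height `h+1` is a factor of `x ++ y`, the tree word of height `h` is a
factor of `x` or of `y`. -/
theorem split2 {h : ℕ} {x y : List Y} (H : tr (h + 1) <:+: x ++ y) :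
    tr h <:+: x ∨ tr h <:+: y := by
  obtain ⟨u, v, H⟩ := H
  have H' : (u ++ Y.lo :: tr h) ++ (Y.lc :: Y.ro :: (tr h ++ [Y.rc]) ++ v) = x ++ y := by
    rw [← H]; simp [tr]
  rcases List.append_eq_append_iff.1 H' with ⟨a, hx, hy⟩ | ⟨a, hx, hy⟩
  · left
    refine ⟨u ++ [Y.lo], a, ?_⟩
    rw [hx]; simp
  · right
    refine ⟨a ++ [Y.lc, Y.ro], [Y.rc] ++ v, ?_⟩
    rw [hy]; simp

theorem split3 {h : ℕ} {x y z : List Y} (H : tr (h + 2) <:+: x ++ y ++ z) :
    tr h <:+: x ∨ tr h <:+: y ∨ tr h <:+: z := by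
  rcases split2 (h := h + 1) H with H1 | H1
  · rcases split2 H1 with H2 | H2
    · exact Or.inl H2
    · exact Or.inr (Or.inl H2)
  · exact Or.inr (Or.inr ((tr_infix_succ h).trans H1))

/-- Left context of the subtree at address `g` in the tree of height `h + g.length`. -/
def lctx (h : ℕ) : List Bool → List Y
  | [] => []
  | false :: g => Y.lo :: lctx h g
  | true :: g => Y.lo :: (tr (h + g.length) ++ Y.lc :: Y.ro :: lctx h g)

/-- Right context of the subtree at address `g`. -/
def rctx (h : ℕ) : List Bool → List Y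
  | [] => []
  | false :: g => rctx h g ++ Y.lc :: Y.ro :: (tr (h + g.length) ++ [Y.rc])
  | true :: g => rctx h g ++ [Y.rc]

theorem tr_ctx (h : ℕ) (g : List Bool) : tr (h + g.length) = lctx h g ++ tr h ++ rctx h g := by
  induction g with
  | nil => simp [lctx, rctx]
  | cons b g ih =>
    have e : h + (b :: g).length = (h + g.length) + 1 := by simp; omega
    rw [e, tr]
    cases b
    · simp only [lctx, rctx]
      conv_lhs => rw [ih]
      rw [ih]
      simp
    · simp only [lctx, rctx]
      have : tr (h + g.length) ++ [Y.rc] = lctx h g ++ tr h ++ rctx h g ++ [Y.rc] := by rw [ih]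
      rw [this]
      simp

/-- Stack pushed by the left context. -/
def stk (g : List Bool) : List Bk := (g.map (fun b => if b then Bk.R else Bk.L)).reverse

theorem rn_lctx (h : ℕ) (g : List Bool) (s : List Bk) :
    rn (lctx h g) s = some (stk g ++ s) := by
  induction g generalizing s with
  | nil => simp [lctx, rn, stk]
  | cons b g ih =>
    cases b
    · simp [lctx, rn, stp, ih, stk]
    · simp [lctx, rn, stp, ih, stk, rn_append, rn_tr]

theorem rn_rctx (h : ℕ) (g : List Bool) (s s' : List Bk) (H : rn (rctx h g) s = some s') :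
    s = stk g ++ s' := by
  induction g generalizing s s' with
  | nil => simpa [rctx, rn, stk] using H
  | cons b g ih =>
    cases b
    · rw [rctx, rn_append] at H
      cases h1 : rn (rctx h g) s with
      | none => simp [h1] at H
      | some s1 =>
        have h2 := ih _ _ h1
        rw [h1, Option.bind_some] at H
        subst h2
        match s1, H with
        | Bk.L :: t, H =>
          simp [rn, stp, rn_append, rn_tr] at H
          subst H
          simp [stk]
        | [], H => simp [rn, stp] at H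
        | Bk.P :: t, H => simp [rn, stp] at H
        | Bk.R :: t, H => simp [rn, stp] at H
    · rw [rctx, rn_append] at H
      cases h1 : rn (rctx h g) s with
      | none => simp [h1] at H
      | some s1 =>
        have h2 := ih _ _ h1
        rw [h1, Option.bind_some] at H
        subst h2
        match s1, H with
        | Bk.R :: t, H =>
          simp [rn, stp] at H
          subst H
          simp [stk]
        | [], H => simp [rn, stp] at H
        | Bk.P :: t, H => simp [rn, stp] at H
        | Bk.L :: t, H => simp [rn, stp] at H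

theorem mismatch {h : ℕ} {g g' : List Bool} (hl : g.length = g'.length)
    (H : Good (lctx h g ++ tr h ++ rctx h g')) : g = g' := by
  obtain ⟨s, s', H⟩ := H
  rw [rn_append, rn_append, rn_lctx, Option.bind_some, rn_tr, Option.bind_some] at H
  have h1 := rn_rctx _ _ _ _ H
  have h2 : stk g = stk g' := by
    have := List.append_inj_left h1 (by simp [stk, hl])
    exact this
  simp only [stk] at h2
  have h3 := List.reverse_injective h2
  refine List.map_injective_iff.2 ?_ h3
  intro a b hab
  cases a <;> cases b <;> simp at hab <;> rfl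

/-! ### Derivations with left and right pieces -/

section Key

variable {ι : Type} (St : ι → List Y → List Y → ι → Prop) (En : ι → List Y → Prop)

/-- Contexts. -/
inductive Ct (i : ι) : List Y → List Y → ι → Prop
  | refl : Ct i [] [] i
  | snoc {a b u v : List Y} {j k : ι} : Ct i a b j → St j u v k → Ct i (a ++ u) (v ++ b) k

/-- Derivable words. -/
def Dr (i : ι) (y : List Y) : Prop := ∃ a b j z, Ct St i a b j ∧ En j z ∧ y = a ++ z ++ b

variable {St En}

theorem Ct.trans {i j k : ι} {a b c d : List Y} (h1 : Ct St i a b j) (h2 : Ct St j c d k) :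
    Ct St i (a ++ c) (d ++ b) k := by
  induction h2 with
  | refl => simpa using h1
  | snoc _ hs ih =>
    have := Ct.snoc ih hs
    simpa using this

theorem Ct.single {i j : ι} {u v : List Y} (h : St i u v j) : Ct St i u v j := by
  have := Ct.snoc (Ct.refl (St := St) (i := i)) h
  simpa using this

theorem Dr.ctx {i j : ι} {a b y : List Y} (h1 : Ct St i a b j) (h2 : Dr St En j y) :
    Dr St En i (a ++ y ++ b) := by
  obtain ⟨c, d, k, z, h3, h4, rfl⟩ := h2
  exact ⟨a ++ c, d ++ b, k, z, h1.trans h3, h4, by simp⟩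

theorem Dr.cons {i j : ι} {u v y : List Y} (h1 : St i u v j) (h2 : Dr St En j y) :
    Dr St En i (u ++ y ++ v) := Dr.ctx (Ct.single h1) h2

theorem Dr.base {i : ι} {z : List Y} (h : En i z) : Dr St En i z :=
  ⟨[], [], i, z, Ct.refl, h, by simp⟩

theorem leftCut {i : ι} {t : List Y} {a b : List Y} {j : ι}
    (h : Ct St i a b j) (hprod : ∃ y, Dr St En j y)
    (hp : ∀ a b j u v k, Ct St i a b j → St j u v k → (∃ y, Dr St En k y) → ¬ t <:+: u)
    (ht : t ≠ []) (u v : List Y) (hs : a = u ++ t ++ v) :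
    ∃ t1 t2 k b1 b2, t = t1 ++ t2 ∧ Ct St i (u ++ t1) b1 k ∧ Ct St k (t2 ++ v) b2 j ∧
      b = b2 ++ b1 := by
  induction h generalizing u v with
  | refl =>
    exfalso
    have : t = [] := by
      have := congrArg List.length hs
      simp at this
      exact List.length_eq_zero_iff.1 (by omega)
    exact ht this
  | @snoc a0 b0 p vp j0 j h1 h2 ih =>
    have hprod0 : ∃ y, Dr St En j0 y := by
      obtain ⟨y, hy⟩ := hprod
      exact ⟨_, Dr.cons h2 hy⟩
    rcases List.append_eq_append_iff.1 hs with ⟨w, h3, h4⟩ | ⟨w, h3, h4⟩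
    · -- u ++ t = a0 ++ w, p = w ++ v
      rcases List.append_eq_append_iff.1 h3 with ⟨w', h5, h6⟩ | ⟨w', h5, h6⟩
      · -- a0 = u ++ w', t = w' ++ w
        refine ⟨w', w, j0, b0, vp, h6, h5 ▸ h1, ?_, rfl⟩
        rw [← h4]
        exact Ct.single h2
      · -- u = a0 ++ w', w = w' ++ t
        exfalso
        refine hp _ _ _ _ _ _ h1 h2 hprod ⟨w', v, ?_⟩
        rw [h4, h6]
    · -- a0 = u ++ t ++ w, v = w ++ p
      obtain ⟨t1, t2, k, b1, b2, e1, e2, e3, e4⟩ := ih hprod0 u w h3
      refine ⟨t1, t2, k, b1, vp ++ b2, e1, e2, ?_, by simp [e4]⟩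
      have := Ct.snoc e3 h2
      rw [h4]
      simpa using this

theorem rightCut {i : ι} {t : List Y} {a b : List Y} {j : ι}
    (h : Ct St i a b j) (hprod : ∃ y, Dr St En j y)
    (hp : ∀ a b j u v k, Ct St i a b j → St j u v k → (∃ y, Dr St En k y) → ¬ t <:+: v)
    (ht : t ≠ []) (u v : List Y) (hs : b = u ++ t ++ v) :
    ∃ t1 t2 k a1 a2, t = t1 ++ t2 ∧ Ct St i a1 (t2 ++ v) k ∧ Ct St k a2 (u ++ t1) j ∧
      a = a1 ++ a2 := by
  induction h generalizing u v with
  | refl =>
    exfalso
    have : t = [] := by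
      have := congrArg List.length hs
      simp at this
      exact List.length_eq_zero_iff.1 (by omega)
    exact ht this
  | @snoc a0 b0 up p j0 j h1 h2 ih =>
    have hprod0 : ∃ y, Dr St En j0 y := by
      obtain ⟨y, hy⟩ := hprod
      exact ⟨_, Dr.cons h2 hy⟩
    have hs' : p ++ b0 = u ++ (t ++ v) := by simpa using hs
    rcases List.append_eq_append_iff.1 hs' with ⟨w, h3, h4⟩ | ⟨w, h3, h4⟩
    · -- u = p ++ w, b0 = w ++ (t ++ v)
      obtain ⟨t1, t2, k, a1, a2, e1, e2, e3, e4⟩ := ih hprod0 w v (by simp [h4])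
      refine ⟨t1, t2, k, a1, a2 ++ up, e1, e2, ?_, by simp [e4]⟩
      have := Ct.snoc e3 h2
      rw [h3]
      simpa using this
    · -- p = u ++ w, t ++ v = w ++ b0
      rcases List.append_eq_append_iff.1 h4 with ⟨w', h5, h6⟩ | ⟨w', h5, h6⟩
      · -- w = t ++ w'
        exfalso
        refine hp _ _ _ _ _ _ h1 h2 hprod ⟨u, w', ?_⟩
        rw [h3, h5]
        simp
      · -- t = w ++ w', b0 = w' ++ v
        refine ⟨w, w', j0, a0, up, h5, h6 ▸ h1, ?_, rfl⟩
        rw [← h3]
        exact Ct.single h2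

theorem keyLemma [Finite ι] (i : ι) (hGood : ∀ y, Dr St En i y → Good y) (h0 : ℕ)
    (hp : ∀ a b j u v k, Ct St i a b j → St j u v k → (∃ y, Dr St En k y) →
      ¬ tr h0 <:+: u ∧ ¬ tr h0 <:+: v)
    (he : ∀ a b j z, Ct St i a b j → En j z → ¬ tr h0 <:+: z) :
    ∃ h, ∀ y, Dr St En i y → ¬ tr h <:+: y := by
  classical
  have := Fintype.ofFinite ι
  obtain ⟨d, hd⟩ : ∃ d : ℕ, Fintype.card (ι × Fin ((tr h0).length + 1)) < 2 ^ d :=
    ⟨_, Nat.lt_two_pow_self⟩
  refine ⟨h0 + d + 2, ?_⟩
  rintro y ⟨a, b, j, z, hc, hz, rfl⟩ hin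
  have hprod : ∃ y, Dr St En j y := ⟨z, Dr.base hz⟩
  have hcard : Fintype.card (ι × Fin ((tr h0).length + 1)) <
      Fintype.card (List.Vector Bool d) := by
    rw [card_vector]; simpa using hd
  rcases split3 hin with h1 | h1 | h1
  · obtain ⟨u, v, h1⟩ := h1
    have cut : ∀ g : List.Vector Bool d, ∃ t1 t2 k b1 b2, tr h0 = t1 ++ t2 ∧
        Ct St i (u ++ lctx h0 g.1 ++ t1) b1 k ∧ Ct St k (t2 ++ (rctx h0 g.1 ++ v)) b2 j ∧
        b = b2 ++ b1 := by
      intro g
      refine leftCut hc hprod (fun a b j u v k h1 h2 h3 => (hp a b j u v k h1 h2 h3).1)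
        (tr_ne_nil h0) _ _ ?_
      rw [← h1]
      have := tr_ctx h0 g.1
      rw [g.2] at this
      rw [this]
      simp
    choose t1 t2 k b1 b2 e1 e2 e3 e4 using cut
    have hlt : ∀ g, (t1 g).length < (tr h0).length + 1 := by
      intro g
      rw [e1 g]; simp
    obtain ⟨g, g', hne, heq⟩ := Fintype.exists_ne_map_eq_of_card_lt
      (fun g => (k g, (⟨(t1 g).length, hlt g⟩ : Fin ((tr h0).length + 1)))) hcard
    simp only [Prod.mk.injEq, Fin.mk.injEq] at heq
    obtain ⟨hk, hlen⟩ := heq
    have ht : t1 g = t1 g' ∧ t2 g = t2 g' := by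
      have : t1 g ++ t2 g = t1 g' ++ t2 g' := by rw [← e1, ← e1]
      exact List.append_inj this hlen
    have hct : Ct St i ((u ++ lctx h0 g.1 ++ t1 g) ++ (t2 g' ++ (rctx h0 g'.1 ++ v)))
        (b2 g' ++ b1 g) j := (e2 g).trans (hk ▸ e3 g')
    have hgood := hGood _ ⟨_, _, j, z, hct, hz, rfl⟩
    have hfac : lctx h0 g.1 ++ tr h0 ++ rctx h0 g'.1 <:+:
        ((u ++ lctx h0 g.1 ++ t1 g) ++ (t2 g' ++ (rctx h0 g'.1 ++ v))) ++ z ++
          (b2 g' ++ b1 g) := by
      refine ⟨u, v ++ z ++ (b2 g' ++ b1 g), ?_⟩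
      rw [e1 g, ← ht.2]
      simp
    exact hne (Subtype.ext (mismatch (by rw [g.2, g'.2]) (hgood.of_infix hfac)))
  · refine he _ _ _ _ hc hz (List.IsInfix.trans ?_ h1)
    exact tr_infix_of_le (by omega)
  · obtain ⟨u, v, h1⟩ := h1
    have cut : ∀ g : List.Vector Bool d, ∃ t1 t2 k a1 a2, tr h0 = t1 ++ t2 ∧
        Ct St i a1 (t2 ++ (rctx h0 g.1 ++ v)) k ∧ Ct St k a2 (u ++ lctx h0 g.1 ++ t1) j ∧
        a = a1 ++ a2 := by
      intro g
      refine rightCut hc hprod (fun a b j u v k h1 h2 h3 => (hp a b j u v k h1 h2 h3).2)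
        (tr_ne_nil h0) _ _ ?_
      rw [← h1]
      have := tr_ctx h0 g.1
      rw [g.2] at this
      rw [this]
      simp
    choose t1 t2 k a1 a2 e1 e2 e3 e4 using cut
    have hlt : ∀ g, (t1 g).length < (tr h0).length + 1 := by
      intro g
      rw [e1 g]; simp
    obtain ⟨g, g', hne, heq⟩ := Fintype.exists_ne_map_eq_of_card_lt
      (fun g => (k g, (⟨(t1 g).length, hlt g⟩ : Fin ((tr h0).length + 1)))) hcard
    simp only [Prod.mk.injEq, Fin.mk.injEq] at heq
    obtain ⟨hk, hlen⟩ := heq
    have ht : t1 g = t1 g' ∧ t2 g = t2 g' := by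
      have : t1 g ++ t2 g = t1 g' ++ t2 g' := by rw [← e1, ← e1]
      exact List.append_inj this hlen
    have hct : Ct St i (a1 g' ++ a2 g)
        ((u ++ lctx h0 g.1 ++ t1 g) ++ (t2 g' ++ (rctx h0 g'.1 ++ v))) j :=
      (e2 g').trans (hk ▸ e3 g)
    have hgood := hGood _ ⟨_, _, j, z, hct, hz, rfl⟩
    have hfac : lctx h0 g.1 ++ tr h0 ++ rctx h0 g'.1 <:+:
        (a1 g' ++ a2 g) ++ z ++
          ((u ++ lctx h0 g.1 ++ t1 g) ++ (t2 g' ++ (rctx h0 g'.1 ++ v))) := by
      refine ⟨(a1 g' ++ a2 g) ++ z ++ u, v, ?_⟩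
      rw [e1 g, ← ht.2]
      simp
    exact hne (Subtype.ext (mismatch (by rw [g.2, g'.2]) (hgood.of_infix hfac)))

end Key

end Pool.Agent.H31.Cone
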