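import Mathlib
import Pool.Agent.H31.Cone.Base
import Pool.Agent.H31.Cone.Tree

namespace Pool.Agent.H31.Cone

section Toolkit

variable {T N : Type}

/-- The language of a symbol for a given interpretation of the nonterminals. -/
def symL (Sem : N → Language T) : Symbol T N → Language T
  | Symbol.terminal a => {[a]}
  | Symbol.nonterminal A => Sem A

/-- The language of a sentential form. -/
def formL (Sem : N → Language T) (s : List (Symbol T N)) : Language T := (s.map (symL Sem)).prod

theorem mem_formL_nil (Sem : N → Language T) (x : List T) : x ∈ formL Sem [] ↔ x = [] := by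
  simp [formL]

theorem mem_formL_t (Sem : N → Language T) (a : T) (s : List (Symbol T N)) (x : List T) :
    x ∈ formL Sem (Symbol.terminal a :: s) ↔ ∃ y ∈ formL Sem s, x = a :: y := by
  simp only [formL, List.map_cons, List.prod_cons, symL, Language.mem_mul]
  constructor
  · rintro ⟨u, hu, v, hv, rfl⟩
    rw [show u = [a] from hu]
    exact ⟨v, hv, rfl⟩
  · rintro ⟨v, hv, rfl⟩
    exact ⟨[a], rfl, v, hv, rfl⟩

theorem mem_formL_n (Sem : N → Language T) (A : N) (s : List (Symbol T N)) (x : List T) :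
    x ∈ formL Sem (Symbol.nonterminal A :: s) ↔
      ∃ u ∈ Sem A, ∃ v ∈ formL Sem s, x = u ++ v := by
  simp only [formL, List.map_cons, List.prod_cons, symL, Language.mem_mul]
  constructor
  · rintro ⟨u, hu, v, hv, rfl⟩
    exact ⟨u, hu, v, hv, rfl⟩
  · rintro ⟨u, hu, v, hv, rfl⟩
    exact ⟨u, hu, v, hv, rfl⟩

theorem mem_formL_append (Sem : N → Language T) (s t : List (Symbol T N)) (x : List T) :
    x ∈ formL Sem (s ++ t) ↔ ∃ u ∈ formL Sem s, ∃ v ∈ formL Sem t, x = u ++ v := by
  simp only [formL, List.map_append, List.prod_append, Language.mem_mul]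
  constructor
  · rintro ⟨u, hu, v, hv, rfl⟩
    exact ⟨u, hu, v, hv, rfl⟩
  · rintro ⟨u, hu, v, hv, rfl⟩
    exact ⟨u, hu, v, hv, rfl⟩

theorem mem_formL_terminals (Sem : N → Language T) (w : List T) :
    w ∈ formL Sem (w.map Symbol.terminal) := by
  induction w with
  | nil => rw [List.map_nil, mem_formL_nil]
  | cons a w ih => rw [List.map_cons, mem_formL_t]; exact ⟨w, ih, rfl⟩

theorem formL_sound {g : ContextFreeGrammar T} (Sem : g.NT → Language T)
    (h : ∀ r ∈ g.rules, ∀ x ∈ formL Sem r.output, x ∈ Sem r.input)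
    {u v : List (Symbol T g.NT)} (hd : g.Derives u v) :
    ∀ x ∈ formL Sem v, x ∈ formL Sem u := by
  induction hd with
  | refl => exact fun x hx => hx
  | tail _ hp ih =>
    intro x hx
    apply ih
    obtain ⟨r, hr, hrw⟩ := hp
    obtain ⟨p, q, rfl, rfl⟩ := hrw.exists_parts
    rw [mem_formL_append] at hx ⊢
    obtain ⟨a, ha, b, hb, rfl⟩ := hx
    rw [mem_formL_append] at ha
    obtain ⟨c, hc, d, hd, rfl⟩ := ha
    refine ⟨c ++ d, ?_, b, hb, rfl⟩
    rw [mem_formL_append]
    refine ⟨c, hc, d, ?_, rfl⟩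
    rw [mem_formL_n]
    exact ⟨d, h r hr d hd, [], by rw [mem_formL_nil], by simp⟩

theorem language_le {g : ContextFreeGrammar T} (Sem : g.NT → Language T)
    (h : ∀ r ∈ g.rules, ∀ x ∈ formL Sem r.output, x ∈ Sem r.input) {w : List T}
    (hw : w ∈ g.language) : w ∈ Sem g.initial := by
  have := formL_sound Sem h hw w (mem_formL_terminals Sem w)
  rw [mem_formL_n] at this
  obtain ⟨u, hu, v, hv, rfl⟩ := this
  rw [mem_formL_nil] at hv
  subst hv
  simpa using hu

/-- `w` can be derived from the sentential form `s`. -/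
def Ders (g : ContextFreeGrammar T) (s : List (Symbol T g.NT)) (w : List T) : Prop :=
  g.Derives s (w.map Symbol.terminal)

/-- `w` can be derived from the nonterminal `A`. -/
def Der (g : ContextFreeGrammar T) (A : g.NT) (w : List T) : Prop :=
  Ders g [Symbol.nonterminal A] w

variable {g : ContextFreeGrammar T}

theorem Ders.nil : Ders g [] [] := Relation.ReflTransGen.refl

theorem Ders.t {s : List (Symbol T g.NT)} {w : List T} (a : T) (h : Ders g s w) :
    Ders g (Symbol.terminal a :: s) (a :: w) := by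
  have := ContextFreeGrammar.Derives.append_left h [Symbol.terminal a]
  simpa [Ders] using this

theorem Ders.n {s : List (Symbol T g.NT)} {A : g.NT} {u w : List T} (hu : Der g A u)
    (h : Ders g s w) : Ders g (Symbol.nonterminal A :: s) (u ++ w) := by
  have h1 := ContextFreeGrammar.Derives.append_right hu s
  have h2 := ContextFreeGrammar.Derives.append_left h (u.map Symbol.terminal)
  have := h1.trans h2
  simpa [Ders] using this

theorem Der.rule {r : ContextFreeRule T g.NT} (hr : r ∈ g.rules) {w : List T}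
    (h : Ders g r.output w) : Der g r.input w :=
  Relation.ReflTransGen.head ⟨r, hr, ContextFreeRule.Rewrites.input_output⟩ h

end Toolkit

/-! ### A grammar for `L` -/

/-- Nonterminals of the grammar of `L`. -/
inductive NL | Z | A | S | B1 | G | D | B2 | U | W
deriving DecidableEq

/-- Abbreviations for symbols. -/
abbrev tt : Symbol (Option X) NL := Symbol.terminal none
/-- terminal symbol of a base letter -/
abbrev tx (x : X) : Symbol (Option X) NL := Symbol.terminal (some x)
/-- nonterminal symbol -/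
abbrev nt (A : NL) : Symbol (Option X) NL := Symbol.nonterminal A

/-- The rules of the grammar of `L`. -/
def rulesL : List (ContextFreeRule (Option X) NL) :=
  [⟨NL.Z, [nt NL.A]⟩, ⟨NL.Z, [nt NL.B1]⟩, ⟨NL.Z, [nt NL.B2]⟩,
   ⟨NL.A, [tt, nt NL.A]⟩, ⟨NL.A, [nt NL.S]⟩,
   ⟨NL.S, []⟩,
   ⟨NL.S, [tx (X.o false), nt NL.S, tx (X.c false)]⟩,
   ⟨NL.S, [tx (X.o true), nt NL.S, tx (X.c true)]⟩,
   ⟨NL.S, [tx X.p, nt NL.S, tx X.q, nt NL.S]⟩,
   ⟨NL.S, [nt NL.S, tx X.p, nt NL.S, tx X.q]⟩,
   ⟨NL.B1, [nt NL.G, nt NL.W]⟩,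
   ⟨NL.G, [tt, nt NL.G, nt NL.D]⟩, ⟨NL.G, [nt NL.D]⟩,
   ⟨NL.D, [tx X.p]⟩,
   ⟨NL.D, [tx (X.o false), nt NL.D]⟩, ⟨NL.D, [tx (X.o true), nt NL.D]⟩,
   ⟨NL.D, [tx (X.c false), nt NL.D]⟩, ⟨NL.D, [tx (X.c true), nt NL.D]⟩,
   ⟨NL.D, [tx X.q, nt NL.D, nt NL.D]⟩,
   ⟨NL.B2, [tt, nt NL.B2]⟩, ⟨NL.B2, [nt NL.U, nt NL.W]⟩,
   ⟨NL.U, [tx X.q]⟩,
   ⟨NL.U, [tx (X.o false), nt NL.U]⟩, ⟨NL.U, [tx (X.o true), nt NL.U]⟩,
   ⟨NL.U, [tx (X.c false), nt NL.U]⟩, ⟨NL.U, [tx (X.c true), nt NL.U]⟩,
   ⟨NL.U, [tx X.p, nt NL.U, nt NL.U]⟩,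
   ⟨NL.W, []⟩,
   ⟨NL.W, [tx (X.o false), nt NL.W]⟩, ⟨NL.W, [tx (X.o true), nt NL.W]⟩,
   ⟨NL.W, [tx (X.c false), nt NL.W]⟩, ⟨NL.W, [tx (X.c true), nt NL.W]⟩,
   ⟨NL.W, [tx X.p, nt NL.W]⟩, ⟨NL.W, [tx X.q, nt NL.W]⟩]

/-- The grammar of `L`. -/
def gL : ContextFreeGrammar (Option X) where
  NT := NL
  initial := NL.Z
  rules := rulesL.toFinset

/-- Meaning of the nonterminals. -/
def semL : NL → Language (Option X)
  | NL.Z => LL
  | NL.A => {z | ∃ (k : ℕ) (w : List X), z = List.replicate k none ++ w.map some ∧ w ∈ SS}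
  | NL.S => {z | ∃ w : List X, z = w.map some ∧ w ∈ SS}
  | NL.B1 => {z | ∃ (k : ℕ) (w : List X), z = List.replicate k none ++ w.map some ∧
      dp k (some 0) w = none}
  | NL.G => {z | ∃ (k : ℕ) (w : List X), z = List.replicate k none ++ w.map some ∧
      ∀ k' d e, dp k' (some d) w = some e → e = d + (k + 1)}
  | NL.D => {z | ∃ w : List X, z = w.map some ∧
      ∀ k d e, dp k (some d) w = some e → e = d + 1}
  | NL.B2 => {z | ∃ (k : ℕ) (w : List X), z = List.replicate k none ++ w.map some ∧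
      ∀ k', dp k' (some 0) w = none}
  | NL.U => {z | ∃ w : List X, z = w.map some ∧
      ∀ k d e, dp k (some d) w = some e → e + 1 = d}
  | NL.W => {z | ∃ w : List X, z = w.map some}

theorem SS_lab {w : List X} (b : Bool) (hw : w ∈ SS) : X.o b :: (w ++ [X.c b]) ∈ SS := by
  obtain ⟨k, hk⟩ := hw
  refine ⟨k, ?_⟩
  cases k with
  | zero => exact Sp.lab b hk
  | succ k => exact Sp.lab b hk

theorem SS_left {u w : List X} (hu : u ∈ SS) (hw : w ∈ SS) : X.p :: (u ++ X.q :: w) ∈ SS := by
  obtain ⟨k, hk⟩ := hu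
  obtain ⟨l, hl⟩ := hw
  exact ⟨max k l + 1, Sp.left (Sl_mono (le_max_left _ _) hk)
    (Sl_mono ((le_max_right k l).trans (Nat.le_succ _)) hl)⟩

theorem SS_right {u w : List X} (hu : u ∈ SS) (hw : w ∈ SS) :
    w ++ X.p :: (u ++ [X.q]) ∈ SS := by
  obtain ⟨k, hk⟩ := hu
  obtain ⟨l, hl⟩ := hw
  exact ⟨max k l + 1, Sp.right (Sl_mono ((le_max_right k l).trans (Nat.le_succ _)) hl)
    (Sl_mono (le_max_left _ _) hk)⟩

theorem dp_some_of_append {k d e : ℕ} {u v : List X}
    (h : dp k (some d) (u ++ v) = some e) : ∃ c, dp k (some d) u = some c ∧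
      dp k (some c) v = some e := by
  rw [dp_append] at h
  cases h1 : dp k (some d) u with
  | none => rw [h1] at h; simp at h
  | some c => exact ⟨c, rfl, by rw [h1] at h; exact h⟩

theorem sd_p_some {k d e : ℕ} {w : List X} (h : dp k (sd k (some d) X.p) w = some e) :
    d < k ∧ dp k (some (d + 1)) w = some e := by
  rw [sd_p] at h
  split_ifs at h with h1
  · exact ⟨h1, h⟩
  · simp at h

theorem sd_q_some {k d e : ℕ} {w : List X} (h : dp k (sd k (some d) X.q) w = some e) :
    ∃ c, d = c + 1 ∧ dp k (some c) w = some e := by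
  cases d with
  | zero => simp at h
  | succ c => exact ⟨c, rfl, by simpa using h⟩

theorem rulesL_sound (r : ContextFreeRule (Option X) NL) (hr' : r ∈ rulesL) :
    ∀ x ∈ formL semL r.output, x ∈ semL r.input := by
  intro x hx
  simp only [rulesL, List.mem_cons, List.not_mem_nil, or_false] at hr'
  rcases hr' with rfl | rfl | rfl | rfl | rfl | rfl | rfl | rfl | rfl | rfl | rfl | rfl | rfl |
    rfl | rfl | rfl | rfl | rfl | rfl | rfl | rfl | rfl | rfl | rfl | rfl | rfl | rfl | rfl |
    rfl | rfl | rfl | rfl | rfl | rfl <;>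
    simp only [mem_formL_nil, mem_formL_t, mem_formL_n] at hx
  · obtain ⟨u, ⟨k, w, rfl, hw⟩, v, rfl, rfl⟩ := hx
    exact ⟨k, w, by simp, Or.inl hw⟩
  · obtain ⟨u, ⟨k, w, rfl, hw⟩, v, rfl, rfl⟩ := hx
    exact ⟨k, w, by simp, Or.inr hw⟩
  · obtain ⟨u, ⟨k, w, rfl, hw⟩, v, rfl, rfl⟩ := hx
    exact ⟨k, w, by simp, Or.inr (hw k)⟩
  · obtain ⟨y, ⟨u, ⟨k, w, rfl, hw⟩, v, rfl, rfl⟩, rfl⟩ := hx
    exact ⟨k + 1, w, by simp [List.replicate_succ], hw⟩
  · obtain ⟨u, ⟨w, rfl, hw⟩, v, rfl, rfl⟩ := hx
    exact ⟨0, w, by simp, hw⟩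
  · exact ⟨[], by simp [hx], 0, Sp.nil⟩
  · obtain ⟨y, ⟨u, ⟨w, rfl, hw⟩, v, ⟨v', rfl, rfl⟩, rfl⟩, rfl⟩ := hx
    exact ⟨_, by simp, SS_lab false hw⟩
  · obtain ⟨y, ⟨u, ⟨w, rfl, hw⟩, v, ⟨v', rfl, rfl⟩, rfl⟩, rfl⟩ := hx
    exact ⟨_, by simp, SS_lab true hw⟩
  · obtain ⟨y, ⟨u, ⟨w, rfl, hw⟩, v, ⟨v', ⟨u', ⟨w', rfl, hw'⟩, v'', rfl, rfl⟩, rfl⟩, rfl⟩, rfl⟩ := hx
    exact ⟨X.p :: (w ++ X.q :: w'), by simp, SS_left hw hw'⟩
  · obtain ⟨u, ⟨w, rfl, hw⟩, v, ⟨v', ⟨u', ⟨w', rfl, hw'⟩, v'', ⟨v3, rfl, rfl⟩, rfl⟩, rfl⟩, rfl⟩ := hx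
    exact ⟨w ++ X.p :: (w' ++ [X.q]), by simp, SS_right hw' hw⟩
  · obtain ⟨u, ⟨k, w, rfl, hw⟩, v, ⟨u', ⟨w', rfl⟩, v', rfl, rfl⟩, rfl⟩ := hx
    refine ⟨k, w ++ w', by simp, ?_⟩
    cases h : dp k (some 0) (w ++ w') with
    | none => rfl
    | some e =>
      obtain ⟨c, h1, h2⟩ := dp_some_of_append h
      have := hw k 0 c h1
      have := dp_le (Nat.zero_le k) h1
      omega
  · obtain ⟨y, ⟨u, ⟨k, w, rfl, hw⟩, v, ⟨u', ⟨w', rfl, hw'⟩, v', rfl, rfl⟩, rfl⟩, rfl⟩ := hx
    refine ⟨k + 1, w ++ w', by simp [List.replicate_succ], ?_⟩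
    intro k' d e h
    obtain ⟨c, h1, h2⟩ := dp_some_of_append h
    have := hw _ _ _ h1
    have := hw' _ _ _ h2
    omega
  · obtain ⟨u, ⟨w, rfl, hw⟩, v, rfl, rfl⟩ := hx
    refine ⟨0, w, by simp, ?_⟩
    intro k' d e h
    have := hw _ _ _ h
    omega
  · obtain ⟨y, rfl, rfl⟩ := hx
    refine ⟨[X.p], by simp, ?_⟩
    intro k d e h
    obtain ⟨_, h⟩ := sd_p_some h
    simp at h
    omega
  · obtain ⟨y, ⟨u, ⟨w, rfl, hw⟩, v, rfl, rfl⟩, rfl⟩ := hx
    exact ⟨X.o false :: w, by simp, fun k d e h => hw k d e h⟩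
  · obtain ⟨y, ⟨u, ⟨w, rfl, hw⟩, v, rfl, rfl⟩, rfl⟩ := hx
    exact ⟨X.o true :: w, by simp, fun k d e h => hw k d e h⟩
  · obtain ⟨y, ⟨u, ⟨w, rfl, hw⟩, v, rfl, rfl⟩, rfl⟩ := hx
    exact ⟨X.c false :: w, by simp, fun k d e h => hw k d e h⟩
  · obtain ⟨y, ⟨u, ⟨w, rfl, hw⟩, v, rfl, rfl⟩, rfl⟩ := hx
    exact ⟨X.c true :: w, by simp, fun k d e h => hw k d e h⟩
  · obtain ⟨y, ⟨u, ⟨w, rfl, hw⟩, v, ⟨u', ⟨w', rfl, hw'⟩, v', rfl, rfl⟩, rfl⟩, rfl⟩ := hx
    refine ⟨X.q :: (w ++ w'), by simp, ?_⟩
    intro k d e h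
    obtain ⟨c0, rfl, h⟩ := sd_q_some h
    obtain ⟨c, h1, h2⟩ := dp_some_of_append h
    have := hw _ _ _ h1
    have := hw' _ _ _ h2
    omega
  · obtain ⟨y, ⟨u, ⟨k, w, rfl, hw⟩, v, rfl, rfl⟩, rfl⟩ := hx
    exact ⟨k + 1, w, by simp [List.replicate_succ], hw⟩
  · obtain ⟨u, ⟨w, rfl, hw⟩, v, ⟨u', ⟨w', rfl⟩, v', rfl, rfl⟩, rfl⟩ := hx
    refine ⟨0, w ++ w', by simp, ?_⟩
    intro k'
    cases h : dp k' (some 0) (w ++ w') with
    | none => rfl
    | some e =>
      obtain ⟨c, h1, h2⟩ := dp_some_of_append h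
      have := hw k' 0 c h1
      omega
  · obtain ⟨y, rfl, rfl⟩ := hx
    refine ⟨[X.q], by simp, ?_⟩
    intro k d e h
    obtain ⟨c, rfl, h⟩ := sd_q_some h
    simp at h
    omega
  · obtain ⟨y, ⟨u, ⟨w, rfl, hw⟩, v, rfl, rfl⟩, rfl⟩ := hx
    exact ⟨X.o false :: w, by simp, fun k d e h => hw k d e h⟩
  · obtain ⟨y, ⟨u, ⟨w, rfl, hw⟩, v, rfl, rfl⟩, rfl⟩ := hx
    exact ⟨X.o true :: w, by simp, fun k d e h => hw k d e h⟩
  · obtain ⟨y, ⟨u, ⟨w, rfl, hw⟩, v, rfl, rfl⟩, rfl⟩ := hx
    exact ⟨X.c false :: w, by simp, fun k d e h => hw k d e h⟩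
  · obtain ⟨y, ⟨u, ⟨w, rfl, hw⟩, v, rfl, rfl⟩, rfl⟩ := hx
    exact ⟨X.c true :: w, by simp, fun k d e h => hw k d e h⟩
  · obtain ⟨y, ⟨u, ⟨w, rfl, hw⟩, v, ⟨u', ⟨w', rfl, hw'⟩, v', rfl, rfl⟩, rfl⟩, rfl⟩ := hx
    refine ⟨X.p :: (w ++ w'), by simp, ?_⟩
    intro k d e h
    obtain ⟨_, h⟩ := sd_p_some h
    obtain ⟨c, h1, h2⟩ := dp_some_of_append h
    have := hw _ _ _ h1
    have := hw' _ _ _ h2
    omega
  · exact ⟨[], by simp [hx]⟩
  · obtain ⟨y, ⟨u, ⟨w, rfl⟩, v, rfl, rfl⟩, rfl⟩ := hx
    exact ⟨X.o false :: w, by simp⟩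
  · obtain ⟨y, ⟨u, ⟨w, rfl⟩, v, rfl, rfl⟩, rfl⟩ := hx
    exact ⟨X.o true :: w, by simp⟩
  · obtain ⟨y, ⟨u, ⟨w, rfl⟩, v, rfl, rfl⟩, rfl⟩ := hx
    exact ⟨X.c false :: w, by simp⟩
  · obtain ⟨y, ⟨u, ⟨w, rfl⟩, v, rfl, rfl⟩, rfl⟩ := hx
    exact ⟨X.c true :: w, by simp⟩
  · obtain ⟨y, ⟨u, ⟨w, rfl⟩, v, rfl, rfl⟩, rfl⟩ := hx
    exact ⟨X.p :: w, by simp⟩
  · obtain ⟨y, ⟨u, ⟨w, rfl⟩, v, rfl, rfl⟩, rfl⟩ := hx
    exact ⟨X.q :: w, by simp⟩

theorem derL {A : NL} {s : List (Symbol (Option X) NL)} (hr : ⟨A, s⟩ ∈ rulesL)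
    {w : List (Option X)} (h : Ders gL s w) : Der gL A w := by
  have hr' : (⟨A, s⟩ : ContextFreeRule (Option X) NL) ∈ rulesL.toFinset :=
    List.mem_toFinset.2 hr
  exact Der.rule (g := gL) (r := ⟨A, s⟩) hr' h

theorem der_S {w : List X} (hw : w ∈ SS) : Der gL NL.S (w.map some) := by
  obtain ⟨k, hk⟩ := hw
  induction k generalizing w with
  | zero =>
    have hk' : Sp ∅ w := hk
    clear hk
    induction hk' with
    | nil => exact derL (s := []) (by simp [rulesL]) Ders.nil
    | @lab b w _ ih =>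
      cases b
      · have := derL (A := NL.S) (s := [tx (X.o false), nt NL.S, tx (X.c false)])
          (by simp [rulesL]) (Ders.t _ (Ders.n ih (Ders.t _ Ders.nil)))
        simpa using this
      · have := derL (A := NL.S) (s := [tx (X.o true), nt NL.S, tx (X.c true)])
          (by simp [rulesL]) (Ders.t _ (Ders.n ih (Ders.t _ Ders.nil)))
        simpa using this
    | left hu _ _ => exact absurd hu (by simp)
    | right _ hu _ => exact absurd hu (by simp)
  | succ k ihk =>
    have hk' : Sp (Sl k) w := hk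
    clear hk
    induction hk' with
    | nil => exact derL (s := []) (by simp [rulesL]) Ders.nil
    | @lab b w _ ih =>
      cases b
      · have := derL (A := NL.S) (s := [tx (X.o false), nt NL.S, tx (X.c false)])
          (by simp [rulesL]) (Ders.t _ (Ders.n ih (Ders.t _ Ders.nil)))
        simpa using this
      · have := derL (A := NL.S) (s := [tx (X.o true), nt NL.S, tx (X.c true)])
          (by simp [rulesL]) (Ders.t _ (Ders.n ih (Ders.t _ Ders.nil)))
        simpa using this
    | @left u w hu _ ih =>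
      have := derL (A := NL.S) (s := [tx X.p, nt NL.S, tx X.q, nt NL.S])
          (by simp [rulesL]) (Ders.t _ (Ders.n (ihk hu) (Ders.t _ (Ders.n ih Ders.nil))))
      simpa using this
    | @right u w _ hu ih =>
      have := derL (A := NL.S) (s := [nt NL.S, tx X.p, nt NL.S, tx X.q])
          (by simp [rulesL]) (Ders.n ih (Ders.t _ (Ders.n (ihk hu) (Ders.t _ Ders.nil))))
      simpa using this

theorem der_W (w : List X) : Der gL NL.W (w.map some) := by
  induction w with
  | nil => exact derL (s := []) (by simp [rulesL]) Ders.nil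
  | cons x w ih =>
    have h : Ders gL [tx x, nt NL.W] (some x :: (w.map some ++ [])) :=
      Ders.t _ (Ders.n ih Ders.nil)
    rw [List.append_nil] at h
    refine derL (s := [tx x, nt NL.W]) ?_ h
    rcases x with b | b | _ | _
    · cases b <;> simp [rulesL]
    · cases b <;> simp [rulesL]
    · simp [rulesL]
    · simp [rulesL]

theorem der_D_o (b : Bool) {w : List (Option X)} (h : Der gL NL.D w) :
    Der gL NL.D (some (X.o b) :: w) := by
  have h : Ders gL [tx (X.o b), nt NL.D] (some (X.o b) :: (w ++ [])) :=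
    Ders.t _ (Ders.n h Ders.nil)
  rw [List.append_nil] at h
  exact derL (s := [tx (X.o b), nt NL.D]) (by cases b <;> simp [rulesL]) h

theorem der_D_c (b : Bool) {w : List (Option X)} (h : Der gL NL.D w) :
    Der gL NL.D (some (X.c b) :: w) := by
  have h : Ders gL [tx (X.c b), nt NL.D] (some (X.c b) :: (w ++ [])) :=
    Ders.t _ (Ders.n h Ders.nil)
  rw [List.append_nil] at h
  exact derL (s := [tx (X.c b), nt NL.D]) (by cases b <;> simp [rulesL]) h

theorem der_D_p : Der gL NL.D [some X.p] :=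
  derL (s := [tx X.p]) (by simp [rulesL]) (Ders.t _ Ders.nil)

theorem der_D_q {u v : List (Option X)} (hu : Der gL NL.D u) (hv : Der gL NL.D v) :
    Der gL NL.D (some X.q :: (u ++ v)) := by
  have h : Ders gL [tx X.q, nt NL.D, nt NL.D] (some X.q :: (u ++ (v ++ []))) :=
    Ders.t _ (Ders.n hu (Ders.n hv Ders.nil))
  rw [List.append_nil] at h
  exact derL (s := [tx X.q, nt NL.D, nt NL.D]) (by simp [rulesL]) h

theorem der_U_o (b : Bool) {w : List (Option X)} (h : Der gL NL.U w) :
    Der gL NL.U (some (X.o b) :: w) := by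
  have h : Ders gL [tx (X.o b), nt NL.U] (some (X.o b) :: (w ++ [])) :=
    Ders.t _ (Ders.n h Ders.nil)
  rw [List.append_nil] at h
  exact derL (s := [tx (X.o b), nt NL.U]) (by cases b <;> simp [rulesL]) h

theorem der_U_c (b : Bool) {w : List (Option X)} (h : Der gL NL.U w) :
    Der gL NL.U (some (X.c b) :: w) := by
  have h : Ders gL [tx (X.c b), nt NL.U] (some (X.c b) :: (w ++ [])) :=
    Ders.t _ (Ders.n h Ders.nil)
  rw [List.append_nil] at h
  exact derL (s := [tx (X.c b), nt NL.U]) (by cases b <;> simp [rulesL]) h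

theorem der_U_q : Der gL NL.U [some X.q] :=
  derL (s := [tx X.q]) (by simp [rulesL]) (Ders.t _ Ders.nil)

theorem der_U_p {u v : List (Option X)} (hu : Der gL NL.U u) (hv : Der gL NL.U v) :
    Der gL NL.U (some X.p :: (u ++ v)) := by
  have h : Ders gL [tx X.p, nt NL.U, nt NL.U] (some X.p :: (u ++ (v ++ []))) :=
    Ders.t _ (Ders.n hu (Ders.n hv Ders.nil))
  rw [List.append_nil] at h
  exact derL (s := [tx X.p, nt NL.U, nt NL.U]) (by simp [rulesL]) h

/-- `m` words derived from `A` followed by an arbitrary word. -/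
inductive PW (A : NL) : ℕ → List (Option X) → Prop
  | zero (w : List X) : PW A 0 (w.map some)
  | succ {m : ℕ} {u v : List (Option X)} : Der gL A u → PW A m v → PW A (m + 1) (u ++ v)

theorem PW_neutral {A : NL} {x : Option X} (h : ∀ w, Der gL A w → Der gL A (x :: w)) {m : ℕ}
    {w : List (Option X)} (hw : PW A (m + 1) w) : PW A (m + 1) (x :: w) := by
  cases hw with
  | succ hu hv => exact PW.succ (h _ hu) hv

theorem PW_down {A : NL} {x : Option X} (h : Der gL A [x]) {m : ℕ}
    {w : List (Option X)} (hw : PW A m w) : PW A (m + 1) (x :: w) := PW.succ h hw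

theorem PW_up {A : NL} {x : Option X}
    (h : ∀ u v, Der gL A u → Der gL A v → Der gL A (x :: (u ++ v))) {m : ℕ}
    {w : List (Option X)} (hw : PW A (m + 2) w) : PW A (m + 1) (x :: w) := by
  cases hw with
  | @succ m u v hu hv =>
    cases hv with
    | @succ m v w hv hw =>
      have := PW.succ (h _ _ hu hv) hw
      simpa using this

theorem PW_of_dp {k : ℕ} : ∀ (w : List X) (d : ℕ), d ≤ k → dp k (some d) w = none →
    PW NL.D (k - d + 1) (w.map some) ∨ PW NL.U (d + 1) (w.map some) := by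
  intro w
  induction w with
  | nil => intro d _ h; simp at h
  | cons x w ih =>
    intro d hd h
    rw [dp_cons] at h
    rcases x with b | b | _ | _
    · rcases ih d hd h with h1 | h1
      · exact Or.inl (PW_neutral (fun _ => der_D_o b) h1)
      · exact Or.inr (PW_neutral (fun _ => der_U_o b) h1)
    · rcases ih d hd h with h1 | h1
      · exact Or.inl (PW_neutral (fun _ => der_D_c b) h1)
      · exact Or.inr (PW_neutral (fun _ => der_U_c b) h1)
    · rw [sd_p] at h
      by_cases hdk : d < k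
      · rw [if_pos hdk] at h
        rcases ih (d + 1) hdk h with h1 | h1
        · left
          rw [show k - (d + 1) + 1 = k - d by omega] at h1
          exact PW_down der_D_p h1
        · exact Or.inr (PW_up (fun _ _ => der_U_p) h1)
      · left
        rw [show k - d = 0 by omega]
        exact PW_down der_D_p (PW.zero w)
    · cases d with
      | zero => exact Or.inr (PW_down der_U_q (PW.zero w))
      | succ d =>
        rw [sd_q] at h
        rcases ih d (by omega) h with h1 | h1
        · left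
          rw [show k - d + 1 = (k - (d + 1)) + 2 by omega] at h1
          exact PW_up (fun _ _ => der_D_q) h1
        · exact Or.inr (PW_down der_U_q h1)

theorem der_G {m : ℕ} : ∀ {x w : List (Option X)}, Der gL NL.G x → PW NL.D m w →
    ∃ (u : List (Option X)) (v : List X), w = u ++ v.map some ∧
      Der gL NL.G (List.replicate m none ++ x ++ u) := by
  induction m with
  | zero =>
    intro x w hx hw
    cases hw with
    | zero v => exact ⟨[], v, rfl, by simpa using hx⟩
  | succ m ih =>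
    intro x w hx hw
    cases hw with
    | @succ m d w hd hw =>
      have h1 : Der gL NL.G (none :: (x ++ (d ++ []))) :=
        derL (s := [tt, nt NL.G, nt NL.D]) (by simp [rulesL])
          (Ders.t _ (Ders.n hx (Ders.n hd Ders.nil)))
      obtain ⟨u, v, rfl, h2⟩ := ih h1 hw
      refine ⟨d ++ u, v, by simp, ?_⟩
      rw [List.append_nil] at h2
      rw [List.replicate_succ']
      simpa using h2

theorem LL_isContextFree : LL.IsContextFree := by
  refine ⟨gL, ?_⟩
  ext z
  constructor
  · intro hz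
    exact language_le (g := gL) semL
      (fun r hr => rulesL_sound r (List.mem_toFinset.1 hr)) hz
  · rintro ⟨k, w, rfl, h⟩
    have tA : ∀ {z : List (Option X)}, Der gL NL.A z → Der gL NL.A (none :: z) := by
      intro z hz
      have h : Ders gL [tt, nt NL.A] (none :: (z ++ [])) := Ders.t _ (Ders.n hz Ders.nil)
      rw [List.append_nil] at h
      exact derL (s := [tt, nt NL.A]) (by simp [rulesL]) h
    have tB : ∀ {z : List (Option X)}, Der gL NL.B2 z → Der gL NL.B2 (none :: z) := by
      intro z hz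
      have h : Ders gL [tt, nt NL.B2] (none :: (z ++ [])) := Ders.t _ (Ders.n hz Ders.nil)
      rw [List.append_nil] at h
      exact derL (s := [tt, nt NL.B2]) (by simp [rulesL]) h
    rcases h with h | h
    · -- t^k S
      have h1 : Der gL NL.A (w.map some) := by
        have h : Ders gL [nt NL.S] (w.map some ++ []) := Ders.n (der_S h) Ders.nil
        rw [List.append_nil] at h
        exact derL (s := [nt NL.S]) (by simp [rulesL]) h
      have h2 : Der gL NL.A (List.replicate k none ++ w.map some) := by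
        induction k with
        | zero => simpa using h1
        | succ k ih => rw [List.replicate_succ]; exact tA ih
      have h3 : Ders gL [nt NL.A] (List.replicate k none ++ w.map some ++ []) :=
        Ders.n h2 Ders.nil
      rw [List.append_nil] at h3
      exact derL (A := NL.Z) (s := [nt NL.A]) (by simp [rulesL]) h3
    · rcases PW_of_dp w 0 (Nat.zero_le k) h with h1 | h1
      · rw [Nat.sub_zero] at h1
        cases hw : w.map some with
        | nil => 
          rw [hw] at h1
          simp at hw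
          subst hw
          simp at h
        | cons a l =>
          rw [← hw]
          generalize w.map some = w' at h1
          cases h1 with
          | @succ m d w1 hd hw1 =>
            have h2 : Der gL NL.G d := by
              have h : Ders gL [nt NL.D] (d ++ []) := Ders.n hd Ders.nil
              rw [List.append_nil] at h
              exact derL (s := [nt NL.D]) (by simp [rulesL]) h
            obtain ⟨u, v, rfl, h3⟩ := der_G h2 hw1
            have h4 : Ders gL [nt NL.G, nt NL.W]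
                ((List.replicate k none ++ d ++ u) ++ (v.map some ++ [])) :=
              Ders.n h3 (Ders.n (der_W v) Ders.nil)
            have h5 := derL (A := NL.B1) (s := [nt NL.G, nt NL.W]) (by simp [rulesL]) h4
            have h6 : Ders gL [nt NL.B1]
                (((List.replicate k none ++ d ++ u) ++ (v.map some ++ [])) ++ []) :=
              Ders.n h5 Ders.nil
            have h7 := derL (A := NL.Z) (s := [nt NL.B1]) (by simp [rulesL]) h6
            have e1 : List.replicate k none ++ (d ++ (u ++ v.map some)) =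
              ((List.replicate k none ++ d ++ u) ++ (v.map some ++ [])) ++ [] := by simp
            rw [e1]
            exact h7
      · generalize w.map some = w' at h1
        cases h1 with
        | @succ m d w1 hd hw1 =>
          cases hw1 with
          | zero v =>
            have h4 : Ders gL [nt NL.U, nt NL.W] (d ++ (v.map some ++ [])) :=
              Ders.n hd (Ders.n (der_W v) Ders.nil)
            have h5 := derL (A := NL.B2) (s := [nt NL.U, nt NL.W]) (by simp [rulesL]) h4
            have h6 : Der gL NL.B2 (List.replicate k none ++ (d ++ (v.map some ++ []))) := by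
              clear h
              induction k with
              | zero => simpa using h5
              | succ k ih => rw [List.replicate_succ]; exact tB ih
            have h7 : Ders gL [nt NL.B2]
                ((List.replicate k none ++ (d ++ (v.map some ++ []))) ++ []) :=
              Ders.n h6 Ders.nil
            have h8 := derL (A := NL.Z) (s := [nt NL.B2]) (by simp [rulesL]) h7
            have e1 : List.replicate k none ++ (d ++ v.map some) =
              (List.replicate k none ++ (d ++ (v.map some ++ []))) ++ [] := by simp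
            rw [e1]
            exact h8

/-! ### The witness language -/

/-- Nonterminals of the grammar of the witness language. -/
inductive NK | S | T
deriving DecidableEq

/-- The rules of the grammar of the witness language. -/
def rulesK : List (ContextFreeRule Y NK) :=
  [⟨NK.S, [Symbol.terminal Y.pl, Symbol.nonterminal NK.S, Symbol.terminal Y.ql]⟩,
   ⟨NK.S, [Symbol.nonterminal NK.T]⟩,
   ⟨NK.T, [Symbol.terminal Y.e]⟩,
   ⟨NK.T, [Symbol.terminal Y.lo, Symbol.nonterminal NK.T, Symbol.terminal Y.lc,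
     Symbol.terminal Y.ro, Symbol.nonterminal NK.T, Symbol.terminal Y.rc]⟩]

/-- The grammar of the witness language. -/
def gK : ContextFreeGrammar Y where
  NT := NK
  initial := NK.S
  rules := rulesK.toFinset

/-- The witness language `{p^n z q^n : z a binary tree word}`. -/
def KK : Language Y := gK.language

theorem KK_isContextFree : KK.IsContextFree := ⟨gK, rfl⟩

theorem derK {A : NK} {s : List (Symbol Y NK)} (hr : ⟨A, s⟩ ∈ rulesK)
    {w : List Y} (h : Ders gK s w) : Der gK A w := by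
  have hr' : (⟨A, s⟩ : ContextFreeRule Y NK) ∈ rulesK.toFinset := List.mem_toFinset.2 hr
  exact Der.rule (g := gK) (r := ⟨A, s⟩) hr' h

theorem der_tr (h : ℕ) : Der gK NK.T (tr h) := by
  induction h with
  | zero => exact derK (s := [Symbol.terminal Y.e]) (by simp [rulesK]) (Ders.t _ Ders.nil)
  | succ h ih =>
    exact derK (s := [Symbol.terminal Y.lo, Symbol.nonterminal NK.T, Symbol.terminal Y.lc,
      Symbol.terminal Y.ro, Symbol.nonterminal NK.T, Symbol.terminal Y.rc]) (by simp [rulesK])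
      (Ders.t Y.lo (Ders.n ih (Ders.t Y.lc (Ders.t Y.ro (Ders.n ih (Ders.t Y.rc Ders.nil))))))

theorem mem_KK (n h : ℕ) :
    List.replicate n Y.pl ++ tr h ++ List.replicate n Y.ql ∈ KK := by
  have h0 : Der gK NK.S (tr h) := by
    have h : Ders gK [Symbol.nonterminal NK.T] (tr h ++ []) := Ders.n (der_tr h) Ders.nil
    rw [List.append_nil] at h
    exact derK (s := [Symbol.nonterminal NK.T]) (by simp [rulesK]) h
  have : Der gK NK.S (List.replicate n Y.pl ++ tr h ++ List.replicate n Y.ql) := by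
    induction n with
    | zero => simpa using h0
    | succ n ih =>
      have h1 : Der gK NK.S (Y.pl ::
          ((List.replicate n Y.pl ++ tr h ++ List.replicate n Y.ql) ++ [Y.ql])) :=
        derK (s := [Symbol.terminal Y.pl, Symbol.nonterminal NK.S, Symbol.terminal Y.ql])
          (by simp [rulesK]) (Ders.t Y.pl (Ders.n ih (Ders.t Y.ql Ders.nil)))
      rw [List.replicate_succ, List.replicate_succ' (a := Y.ql)]
      simpa using h1
  exact this

/-- Meaning of the nonterminals of the grammar of the witness language. -/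
def semK : NK → Language Y := fun _ => {w | ∀ s, rn w s = some s}

theorem rn_KK {w : List Y} (hw : w ∈ KK) (s : List Bk) : rn w s = some s := by
  have key : ∀ (r : ContextFreeRule Y NK), r ∈ rulesK →
      ∀ x ∈ formL semK r.output, x ∈ semK r.input := by
    intro r hr x hx
    simp only [rulesK, List.mem_cons, List.not_mem_nil, or_false] at hr
    rcases hr with rfl | rfl | rfl | rfl <;>
      simp only [mem_formL_nil, mem_formL_t, mem_formL_n] at hx
    · obtain ⟨y, ⟨u, hu, v, ⟨v', rfl, rfl⟩, rfl⟩, rfl⟩ := hx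
      intro s
      simp [rn, stp, rn_append, hu (Bk.P :: s)]
    · obtain ⟨u, hu, v, rfl, rfl⟩ := hx
      intro s
      simpa using hu s
    · obtain ⟨y, rfl, rfl⟩ := hx
      intro s
      simp [rn, stp]
    · obtain ⟨y, ⟨u, hu, v, ⟨v1, ⟨v2, ⟨u', hu', v', ⟨v3, rfl, rfl⟩, rfl⟩, rfl⟩, rfl⟩, rfl⟩, rfl⟩ := hx
      intro s
      simp [rn, stp, rn_append, hu (Bk.L :: s), hu' (Bk.R :: s)]
  have := language_le (g := gK) semK
    (fun r hr => key r (List.mem_toFinset.1 hr)) hw
  exact this s

theorem good_of_KK {w : List Y} (hw : w ∈ KK) : Good w := ⟨[], [], rn_KK hw []⟩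

theorem rn_count {w : List Y} : ∀ {s s' : List Bk}, rn w s = some s' →
    s.count Bk.P + w.count Y.pl = s'.count Bk.P + w.count Y.ql := by
  induction w with
  | nil => intro s s' h; simp [rn] at h; subst h; simp
  | cons a w ih =>
    intro s s' h
    rw [rn] at h
    cases h1 : stp s a with
    | none => simp [h1] at h
    | some t =>
      rw [h1, Option.bind_some] at h
      have h2 := ih h
      cases a with
      | pl => simp [stp] at h1; subst h1; simp at h2 ⊢; omega
      | lo => simp [stp] at h1; subst h1; simpa using h2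
      | ro => simp [stp] at h1; subst h1; simpa using h2
      | e => simp [stp] at h1; subst h1; simpa using h2
      | ql =>
        match s, h1 with
        | Bk.P :: s, h1 => simp [stp] at h1; subst h1; simp at h2 ⊢; omega
      | lc =>
        match s, h1 with
        | Bk.L :: s, h1 => simp [stp] at h1; subst h1; simpa using h2
      | rc =>
        match s, h1 with
        | Bk.R :: s, h1 => simp [stp] at h1; subst h1; simpa using h2

theorem KK_count {w : List Y} (hw : w ∈ KK) : w.count Y.pl = w.count Y.ql := by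
  have := rn_count (rn_KK hw [])
  simpa using this

end Pool.Agent.H31.Cone
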