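import Mathlib

/-!
Definitions used in the statement of the theorem on principal rational cones
containing all quasi-rational languages (problem MP_2d18ab_lc).
-/

namespace Pool.Agent.H31.Cone

/-- A finite transducer with input alphabet `α` and output alphabet `β`: a finite set of states,
finitely many edges `(q, u, v, q')` (go from state `q` to state `q'`, read the word `u`, write the
word `v`), initial states and final states. -/
structure Transducer (α β : Type) where
  /-- the states -/
  Q : Type
  /-- there are finitely many states -/
  finQ : Finite Q
  /-- the edges `(q, u, v, q')` -/
  edges : Set (Q × List α × List β × Q)
  /-- there are finitely many edges -/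
  finEdges : edges.Finite
  /-- the initial states -/
  init : Set Q
  /-- the final states -/
  final : Set Q

/-- `T.Path q u v q'`: there is a path from `q` to `q'` along which the word `u` is read and the
word `v` is written. -/
inductive Transducer.Path {α β : Type} (T : Transducer α β) :
    T.Q → List α → List β → T.Q → Prop
  | nil (q : T.Q) : Transducer.Path T q [] [] q
  | cons {q q' q'' : T.Q} {u u' : List α} {v v' : List β} :
      (q, u, v, q') ∈ T.edges → Transducer.Path T q' u' v' q'' →
        Transducer.Path T q (u ++ u') (v ++ v') q''

/-- The image of the language `L` under the rational transduction computed by `T`: all words
written along a path from an initial to a final state on which a word of `L` is read. -/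
def Transducer.image {α β : Type} (T : Transducer α β) (L : Language α) : Language β :=
  {v | ∃ u ∈ L, ∃ i ∈ T.init, ∃ f ∈ T.final, T.Path i u v f}

/-- `K` belongs to the principal rational cone `T(L)` generated by `L`: it is the image of `L`
under a rational transduction. -/
def InCone {α β : Type} (L : Language α) (K : Language β) : Prop :=
  ∃ T : Transducer α β, K = T.image L

/-- `true` for nonterminals and `false` for terminals. -/
def isNonterminal {T N : Type} : Symbol T N → Bool
  | Symbol.terminal _ => false
  | Symbol.nonterminal _ => true

/-- A language is linear if it is generated by a context-free grammar in which every right-hand
side contains at most one nonterminal. -/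
def IsLinear {α : Type} (L : Language α) : Prop :=
  ∃ g : ContextFreeGrammar α, (∀ r ∈ g.rules, r.output.countP isNonterminal ≤ 1) ∧ g.language = L

/-- The language `σ(L)` obtained from `L` by substituting the language `σ a` for every
letter `a`. -/
def substitute {α β : Type} (σ : α → Language β) (L : Language α) : Language β :=
  {w | ∃ u ∈ L, w ∈ (u.map σ).prod}

/-- The family of quasi-rational (non-expansive) languages: the smallest family of languages over
finite alphabets that contains the linear languages and is closed under substitution. -/
inductive Qrt : {α : Type} → Language α → Prop
  | linear {α : Type} [Finite α] {L : Language α} : IsLinear L → Qrt L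
  | substitution {α β : Type} [Finite α] [Finite β] {L : Language α} {σ : α → Language β} :
      Qrt L → (∀ a, Qrt (σ a)) → Qrt (substitute σ L)

end Pool.Agent.H31.Cone
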