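import Mathlib
import Pool.Agent.H31.Cone.Defs

namespace Pool.Agent.H31.Cone

/-- Paths of length `n` in a transducer in normal form (at most one letter read and at most one
letter written on every edge). -/
inductive NP {Q α β : Type} (E : Q → Option α → Option β → Q → Prop) :
    ℕ → Q → List α → List β → Q → Prop
  | nil (q : Q) : NP E 0 q [] [] q
  | cons {n : ℕ} {q q' q'' : Q} {a : Option α} {b : Option β} {u : List α} {v : List β} :
      E q a b q' → NP E n q' u v q'' → NP E (n + 1) q (a.toList ++ u) (b.toList ++ v) q''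

section
variable {Q α β : Type} {E : Q → Option α → Option β → Q → Prop}

theorem NP.trans {m n : ℕ} {q q' q'' : Q} {u u' : List α} {v v' : List β}
    (h1 : NP E m q u v q') (h2 : NP E n q' u' v' q'') : NP E (m + n) q (u ++ u') (v ++ v') q'' := by
  induction h1 with
  | nil => simpa using h2
  | @cons m q q' q'' a b u v he _ ih =>
    have := NP.cons he (ih h2)
    rw [show m + 1 + n = m + n + 1 from by omega]
    simpa using this

theorem NP.single {q q' : Q} {a : Option α} {b : Option β} (h : E q a b q') :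
    NP E 1 q a.toList b.toList q' := by
  have := NP.cons h (NP.nil q')
  simpa using this

/-- Split a path along a splitting of the word read. -/
theorem NP.split {n : ℕ} {q q' : Q} {u u1 u2 : List α} {v : List β} (h : NP E n q u v q')
    (hu : u = u1 ++ u2) : ∃ n1 n2 s v1 v2, NP E n1 q u1 v1 s ∧ NP E n2 s u2 v2 q' ∧
      v = v1 ++ v2 ∧ n = n1 + n2 := by
  induction h generalizing u1 with
  | nil q =>
    obtain ⟨rfl, rfl⟩ := List.append_eq_nil_iff.1 hu.symm
    exact ⟨0, 0, q, [], [], NP.nil q, NP.nil q, rfl, rfl⟩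
  | @cons n q q' q'' a b u v he hp ih =>
    cases a with
    | none =>
      obtain ⟨n1, n2, s, v1, v2, h1, h2, h3, h4⟩ := ih hu
      refine ⟨n1 + 1, n2, s, b.toList ++ v1, v2, ?_, h2, by simp [h3], by omega⟩
      exact NP.cons he h1
    | some x =>
      cases u1 with
      | nil =>
        simp only [List.nil_append] at hu
        refine ⟨0, n + 1, q, [], b.toList ++ v, NP.nil q, ?_, rfl, by omega⟩
        rw [← hu]
        exact NP.cons he hp
      | cons y u1 =>
        simp only [Option.toList_some, List.cons_append, List.nil_append, List.cons.injEq] at hu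
        obtain ⟨rfl, hu⟩ := hu
        obtain ⟨n1, n2, s, v1, v2, h1, h2, h3, h4⟩ := ih hu
        refine ⟨n1 + 1, n2, s, b.toList ++ v1, v2, ?_, h2, by simp [h3], by omega⟩
        exact NP.cons he h1

/-- Peel off the first letter read. -/
theorem NP.peelLeft {n : ℕ} {q q' : Q} {x : α} {u : List α} {v : List β}
    (h : NP E n q (x :: u) v q') : ∃ n0 n1 s s' v0 b v1, NP E n0 q [] v0 s ∧
      E s (some x) b s' ∧ NP E n1 s' u v1 q' ∧ v = v0 ++ b.toList ++ v1 ∧ n = n0 + 1 + n1 := by
  generalize hw : x :: u = w at h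
  induction h with
  | nil => simp at hw
  | @cons n q q' q'' a b u' v he hp ih =>
    cases a with
    | none =>
      obtain ⟨n0, n1, s, s', v0, b', v1, h1, h2, h3, h4, h5⟩ := ih (by simpa using hw)
      refine ⟨n0 + 1, n1, s, s', b.toList ++ v0, b', v1, ?_, h2, h3, by simp [h4], by omega⟩
      exact NP.cons he h1
    | some y =>
      simp only [Option.toList_some, List.cons_append, List.nil_append, List.cons.injEq] at hw
      obtain ⟨rfl, rfl⟩ := hw
      exact ⟨0, n, q, q', [], b, v, NP.nil q, he, hp, by simp, by omega⟩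

/-- Peel off the last letter read. -/
theorem NP.peelRight {n : ℕ} {q q' : Q} {x : α} {u : List α} {v : List β}
    (h : NP E n q (u ++ [x]) v q') : ∃ n0 n1 s s' v0 b v1, NP E n0 q u v0 s ∧
      E s (some x) b s' ∧ NP E n1 s' [] v1 q' ∧ v = v0 ++ b.toList ++ v1 := by
  obtain ⟨n1, n2, s, v1, v2, h1, h2, h3, _⟩ := h.split rfl
  obtain ⟨m0, m1, t, t', w0, b, w1, h4, h5, h6, h7, _⟩ := h2.peelLeft
  refine ⟨n1 + m0, m1, t, t', v1 ++ w0, b, w1, ?_, h5, h6, by simp [h3, h7]⟩
  simpa using h1.trans h4

theorem NP.length_le {n : ℕ} {q q' : Q} {u : List α} {v : List β} (h : NP E n q u v q') :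
    u.length ≤ n ∧ v.length ≤ n := by
  induction h with
  | nil => simp
  | @cons n q q' q'' a b u v he hp ih =>
    constructor
    · cases a <;> simp <;> omega
    · cases b <;> simp <;> omega

/-- A long path contains a short loop near its beginning. -/
theorem NP.loop [Finite Q] {n : ℕ} {q q' : Q} {u : List α} {v : List β} (h : NP E n q u v q')
    (hn : Nat.card Q ≤ n) : ∃ n1 n2 n3 s u1 u2 u3 v1 v2 v3, NP E n1 q u1 v1 s ∧
      NP E n2 s u2 v2 s ∧ NP E n3 s u3 v3 q' ∧ u = u1 ++ u2 ++ u3 ∧ v = v1 ++ v2 ++ v3 ∧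
      n = n1 + n2 + n3 ∧ 0 < n2 ∧ n1 + n2 ≤ Nat.card Q := by
  classical
  have := Fintype.ofFinite Q
  -- the sequence of states and splittings
  have key : ∀ {n : ℕ} {q q' : Q} {u : List α} {v : List β}, NP E n q u v q' →
      ∃ (st : ℕ → Q) (iu : ℕ → List α) (ov : ℕ → List β), st 0 = q ∧ st n = q' ∧
        (∀ j < n, NP E 1 (st j) (iu j) (ov j) (st (j + 1))) ∧
        u = (List.range n).flatMap iu ∧ v = (List.range n).flatMap ov := by
    intro n q q' u v h
    induction h with
    | nil q => exact ⟨fun _ => q, fun _ => [], fun _ => [], rfl, rfl, by simp, by simp, by simp⟩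
    | @cons n q q' q'' a b u v he hp ih =>
      obtain ⟨st, iu, ov, h0, h1, h2, h3, h4⟩ := ih
      refine ⟨fun j => Nat.casesOn j q st, fun j => Nat.casesOn j a.toList iu,
        fun j => Nat.casesOn j b.toList ov, rfl, h1, ?_, ?_, ?_⟩
      · intro j hj
        cases j with
        | zero => simp only [h0]; exact NP.single he
        | succ j => exact h2 j (by omega)
      · rw [List.range_succ_eq_map]
        simp [List.flatMap_map, h3]
      · rw [List.range_succ_eq_map]
        simp [List.flatMap_map, h4]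
  obtain ⟨st, iu, ov, h0, h1, h2, h3, h4⟩ := key h
  have seg : ∀ a m, a + m ≤ n → NP E m (st a) ((List.range' a m).flatMap iu)
      ((List.range' a m).flatMap ov) (st (a + m)) := by
    intro a m
    induction m with
    | zero => intro _; simpa using NP.nil (st a)
    | succ m ih =>
      intro hm
      have h5 := (ih (by omega)).trans (h2 (a + m) (by omega))
      rw [List.range'_concat]
      simpa [add_assoc] using h5
  have hcard : Fintype.card Q < Fintype.card (Fin (Nat.card Q + 1)) := by
    simp [Nat.card_eq_fintype_card]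
  obtain ⟨i, j, hne, heq⟩ := Fintype.exists_ne_map_eq_of_card_lt
    (fun i : Fin (Nat.card Q + 1) => st i) hcard
  have main : ∀ i j : ℕ, i < j → j ≤ Nat.card Q → st i = st j →
      ∃ n1 n2 n3 s u1 u2 u3 v1 v2 v3, NP E n1 q u1 v1 s ∧
      NP E n2 s u2 v2 s ∧ NP E n3 s u3 v3 q' ∧ u = u1 ++ u2 ++ u3 ∧ v = v1 ++ v2 ++ v3 ∧
      n = n1 + n2 + n3 ∧ 0 < n2 ∧ n1 + n2 ≤ Nat.card Q := by
    intro i j hij hj hst
    have s1 := seg 0 i (by omega)
    have s2 := seg i (j - i) (by omega)
    have s3 := seg j (n - j) (by omega)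
    rw [h0, zero_add] at s1
    rw [show i + (j - i) = j by omega, ← hst] at s2
    rw [show j + (n - j) = n by omega, h1, ← hst] at s3
    have hr : List.range n = List.range' 0 i ++ List.range' i (j - i) ++ List.range' j (n - j) := by
      rw [List.range_eq_range']
      have e1 := List.range'_append_1 (s := 0) (m := i) (n := j - i)
      have e2 := List.range'_append_1 (s := 0) (m := j) (n := n - j)
      rw [zero_add] at e1 e2
      rw [e1, show i + (j - i) = j by omega, e2, show j + (n - j) = n by omega]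
    refine ⟨i, j - i, n - j, st i, _, _, _, _, _, _, s1, s2, s3, ?_, ?_, by omega, by omega,
      by omega⟩
    · rw [h3, hr]; simp
    · rw [h4, hr]; simp
  have hi := i.2
  have hj := j.2
  rcases lt_or_gt_of_ne (fun h => hne (Fin.ext h) : (i : ℕ) ≠ j) with h5 | h5
  · exact main i j h5 (by omega) heq
  · exact main j i h5 (by omega) heq.symm

end

/-! ### Normalisation -/

/-- The edges of the normal form: a state `(u, v, q)` still has to read `u` and to write `v`
before being in state `q`. -/
inductive NE {α β : Type} (T : Transducer α β) :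
    (List α × List β × T.Q) → Option α → Option β → (List α × List β × T.Q) → Prop
  | rd (a : α) (u : List α) (v : List β) (q : T.Q) : NE T (a :: u, v, q) (some a) none (u, v, q)
  | wr (b : β) (v : List β) (q : T.Q) : NE T ([], b :: v, q) none (some b) ([], v, q)
  | ed {q q' : T.Q} {u : List α} {v : List β} : (q, u, v, q') ∈ T.edges →
      NE T ([], [], q) none none (u, v, q')

/-- The useful states of the normal form. -/
def NS {α β : Type} (T : Transducer α β) : Set (List α × List β × T.Q) :=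
  {x | ∃ e ∈ T.edges, x.1 <:+ e.2.1 ∧ x.2.1 <:+ e.2.2.1 ∧ x.2.2 = e.2.2.2} ∪
    {x | x.1 = [] ∧ x.2.1 = []}

theorem finite_suffixes {α : Type} (u : List α) : {x : List α | x <:+ u}.Finite := by
  have : {x : List α | x <:+ u} ⊆ (fun n => u.drop n) '' Set.Iic u.length := by
    intro x hx
    obtain ⟨y, rfl⟩ := hx
    exact ⟨y.length, by simp, by simp⟩
  exact (Set.Finite.image _ (Set.finite_Iic _)).subset this

theorem NS_finite {α β : Type} (T : Transducer α β) : (NS T).Finite := by
  have := T.finQ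
  refine Set.Finite.union ?_ ?_
  · have : {x : List α × List β × T.Q |
        ∃ e ∈ T.edges, x.1 <:+ e.2.1 ∧ x.2.1 <:+ e.2.2.1 ∧ x.2.2 = e.2.2.2} ⊆
        ⋃ e ∈ T.edges, ({x | x <:+ e.2.1} ×ˢ ({x | x <:+ e.2.2.1} ×ˢ {e.2.2.2})) := by
      rintro ⟨x, y, q⟩ ⟨e, he, h1, h2, h3⟩
      simp only [Set.mem_iUnion]
      exact ⟨e, he, h1, h2, h3⟩
    refine Set.Finite.subset (Set.Finite.biUnion T.finEdges ?_) this
    intro e _
    exact (finite_suffixes _).prod ((finite_suffixes _).prod (Set.finite_singleton _))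
  · have : {x : List α × List β × T.Q | x.1 = [] ∧ x.2.1 = []} ⊆
        Set.range (fun q : T.Q => (([] : List α), ([] : List β), q)) := by
      rintro ⟨x, y, q⟩ ⟨h1, h2⟩
      simp only at h1 h2
      subst h1; subst h2
      exact ⟨q, rfl⟩
    exact (Set.finite_range _).subset this

theorem NE.mem_right {α β : Type} {T : Transducer α β} {x y : List α × List β × T.Q}
    {a : Option α} {b : Option β} (h : NE T x a b y) (hx : x ∈ NS T) : y ∈ NS T := by
  cases h with
  | rd a u v q =>
    rcases hx with ⟨e, he, h1, h2, h3⟩ | ⟨h1, _⟩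
    · exact Or.inl ⟨e, he, (List.suffix_cons _ _).trans h1, h2, h3⟩
    · simp at h1
  | wr b v q =>
    rcases hx with ⟨e, he, h1, h2, h3⟩ | ⟨_, h1⟩
    · exact Or.inl ⟨e, he, h1, (List.suffix_cons _ _).trans h2, h3⟩
    · simp at h1
  | ed he => exact Or.inl ⟨_, he, List.suffix_refl _, List.suffix_refl _, rfl⟩

theorem NP_of_read {α β : Type} (T : Transducer α β) (u : List α) (v : List β) (q : T.Q) :
    ∃ n, NP (NE T) n (u, v, q) u v ([], [], q) := by
  induction u with
  | nil =>
    induction v with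
    | nil => exact ⟨0, NP.nil _⟩
    | cons b v ih =>
      obtain ⟨n, hn⟩ := ih
      exact ⟨n + 1, NP.cons (NE.wr b v q) hn⟩
  | cons a u ih =>
    obtain ⟨n, hn⟩ := ih
    exact ⟨n + 1, NP.cons (NE.rd a u v q) hn⟩

theorem NP_of_path {α β : Type} (T : Transducer α β) {q q' : T.Q} {u : List α} {v : List β}
    (h : T.Path q u v q') : ∃ n, NP (NE T) n ([], [], q) u v ([], [], q') := by
  induction h with
  | nil q => exact ⟨0, NP.nil _⟩
  | @cons q q' q'' u u' v v' he _ ih =>
    obtain ⟨n, hn⟩ := ih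
    obtain ⟨m, hm⟩ := NP_of_read T u v q'
    refine ⟨m + n + 1, ?_⟩
    have := NP.cons (NE.ed he) (hm.trans hn)
    simpa using this

theorem path_of_NP {α β : Type} (T : Transducer α β) {n : ℕ} {x y : List α × List β × T.Q}
    {u : List α} {v : List β} (h : NP (NE T) n x u v y) (hy : y.1 = [] ∧ y.2.1 = []) :
    ∃ u' v', u = x.1 ++ u' ∧ v = x.2.1 ++ v' ∧ T.Path x.2.2 u' v' y.2.2 := by
  induction h with
  | nil x => exact ⟨[], [], by simp [hy.1], by simp [hy.2], Transducer.Path.nil _⟩
  | cons he _ ih =>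
    obtain ⟨u', v', h1, h2, h3⟩ := ih hy
    cases he with
    | rd a u v q => exact ⟨u', v', by simp [h1], by simp [h2], h3⟩
    | wr b v q => exact ⟨u', v', by simpa using h1, by simp [h2], h3⟩
    | ed he =>
      refine ⟨_, _, rfl, rfl, ?_⟩
      rw [h1, h2]
      exact Transducer.Path.cons he h3

/-- Every rational transduction is computed by a transducer in normal form. -/
theorem exists_normal {α β : Type} (T : Transducer α β) :
    ∃ (Q : Type) (_ : Finite Q) (E : Q → Option α → Option β → Q → Prop) (I F : Set Q),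
      ∀ (L : Language α), T.image L = {v | ∃ u ∈ L, ∃ i ∈ I, ∃ f ∈ F, ∃ n, NP E n i u v f} := by
  refine ⟨NS T, (NS_finite T).to_subtype, fun x a b y => NE T x.1 a b y.1,
    {x | x.1.1 = [] ∧ x.1.2.1 = [] ∧ x.1.2.2 ∈ T.init},
    {x | x.1.1 = [] ∧ x.1.2.1 = [] ∧ x.1.2.2 ∈ T.final}, ?_⟩
  -- transfer between the subtype and the whole type
  have toS : ∀ {n : ℕ} {x y : List α × List β × T.Q} {u : List α} {v : List β},
      NP (NE T) n x u v y → ∀ (hx : x ∈ NS T), ∃ (hy : y ∈ NS T),
        NP (fun (x : NS T) a b (y : NS T) => NE T x.1 a b y.1) n ⟨x, hx⟩ u v ⟨y, hy⟩ := by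
    intro n x y u v h
    induction h with
    | nil x => intro hx; exact ⟨hx, NP.nil _⟩
    | cons he _ ih =>
      intro hx
      obtain ⟨hy, h1⟩ := ih (he.mem_right hx)
      refine ⟨hy, NP.cons (E := (fun (x : NS T) a b (y : NS T) => NE T x.1 a b y.1)) ?_ h1⟩
      exact he
  have back : ∀ {n : ℕ} {x y : NS T} {u : List α} {v : List β},
      NP (fun (x : NS T) a b (y : NS T) => NE T x.1 a b y.1) n x u v y → NP (NE T) n x.1 u v y.1 := by
    intro n x y u v h
    induction h with
    | nil x => exact NP.nil _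
    | cons he _ ih => exact NP.cons he ih
  intro L
  ext v
  constructor
  · rintro ⟨u, hu, i, hi, f, hf, hp⟩
    obtain ⟨n, hn⟩ := NP_of_path T hp
    have hi' : (([] : List α), ([] : List β), i) ∈ NS T := Or.inr ⟨rfl, rfl⟩
    obtain ⟨hf', hn'⟩ := toS hn hi'
    exact ⟨u, hu, ⟨_, hi'⟩, ⟨rfl, rfl, hi⟩, ⟨_, hf'⟩, ⟨rfl, rfl, hf⟩, n, hn'⟩
  · rintro ⟨u, hu, ⟨⟨x1, x2, i⟩, hx⟩, ⟨h1, h2, hi⟩, ⟨⟨y1, y2, f⟩, hy⟩, ⟨h3, h4, hf⟩, n, hn⟩
    simp only at h1 h2 h3 h4 hi hf
    subst h1; subst h2; subst h3; subst h4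
    obtain ⟨u', v', h5, h6, h7⟩ := path_of_NP T (back hn) ⟨rfl, rfl⟩
    simp only [List.nil_append] at h5 h6
    subst h5; subst h6
    exact ⟨u, hu, i, hi, f, hf, h7⟩

end Pool.Agent.H31.Cone
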