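import Mathlib
import Pool.Agent.H31.Cone.Base
import Pool.Agent.H31.Cone.Norm

namespace Pool.Agent.H31.Cone

/-- Label letters. -/
inductive Lb | o (b : Bool) | c (b : Bool)
deriving DecidableEq

/-- Palindromic label words. -/
inductive P0 : List Lb → Prop
  | nil : P0 []
  | lab (b : Bool) {w : List Lb} : P0 w → P0 (Lb.o b :: (w ++ [Lb.c b]))

/-- Leveled letters. -/
inductive Lt | l (x : Lb) | bo (j : ℕ) | bc (j : ℕ)

/-- Leveled spine closure. -/
inductive SpL (j : ℕ) (C : Set (List Lt)) : List Lt → Prop
  | nil : SpL j C []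
  | lab (b : Bool) {w : List Lt} : SpL j C w → SpL j C (Lt.l (Lb.o b) :: (w ++ [Lt.l (Lb.c b)]))
  | left {u w : List Lt} : u ∈ C → SpL j C w → SpL j C (Lt.bo j :: (u ++ Lt.bc j :: w))
  | right {u w : List Lt} : SpL j C w → u ∈ C → SpL j C (w ++ Lt.bo j :: (u ++ [Lt.bc j]))

/-- Leveled languages. -/
def Lv : ℕ → Set (List Lt)
  | 0 => {z | SpL 0 ∅ z}
  | m + 1 => {z | SpL m (Lv m) z}

theorem Lv_letters (m : ℕ) : ∀ z ∈ Lv m, ∀ j, (Lt.bo j ∈ z ∨ Lt.bc j ∈ z) → j < m := by
  induction m with
  | zero =>
    intro z hz j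
    have hz' : SpL 0 ∅ z := hz
    clear hz
    induction hz' with
    | nil => simp
    | lab b _ ih => simpa using ih
    | left hu _ _ => exact absurd hu (by simp)
    | right _ hu _ => exact absurd hu (by simp)
  | succ m ihm =>
    intro z hz j
    have hz' : SpL m (Lv m) z := hz
    clear hz
    induction hz' with
    | nil => simp
    | lab b _ ih => simpa using ih
    | @left u w hu _ ih =>
      have h1 := ihm u hu j
      simp only [List.mem_cons, List.mem_append, Lt.bo.injEq, Lt.bc.injEq, reduceCtorEq,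
        false_or]
      rintro ((h | h | h) | (h | h | h))
      · omega
      · have := h1 (Or.inl h); omega
      · exact ih (Or.inl h)
      · have := h1 (Or.inr h); omega
      · omega
      · exact ih (Or.inr h)
    | @right u w _ hu ih =>
      have h1 := ihm u hu j
      simp only [List.mem_cons, List.mem_append, Lt.bo.injEq, Lt.bc.injEq, reduceCtorEq,
        false_or, List.not_mem_nil, or_false]
      rintro ((h | h | h) | (h | h | h))
      · exact ih (Or.inl h)
      · omega
      · have := h1 (Or.inl h); omega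
      · exact ih (Or.inr h)
      · have := h1 (Or.inr h); omega
      · omega

/-- Images of the leveled language of level `m`. -/
def FL {β : Type} (m : ℕ) (K : Language β) : Prop :=
  ∃ (Q : Type) (_ : Finite Q) (E : Q → Option Lt → Option β → Q → Prop) (I F : Set Q),
    K = {v | ∃ u ∈ Lv m, ∃ i ∈ I, ∃ f ∈ F, ∃ n, NP E n i u v f}

/-! ### Items -/

/-- `It m C w z`: the word `z` is the label word `w` with blocks inserted. -/
inductive It (m : ℕ) (C : Set (List Lt)) : List Lb → List Lt → Prop
  | nil : It m C [] []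
  | lab (x : Lb) {w : List Lb} {z : List Lt} : It m C w z → It m C (x :: w) (Lt.l x :: z)
  | blk {u z : List Lt} {w : List Lb} : u ∈ C → It m C w z →
      It m C w (Lt.bo m :: (u ++ Lt.bc m :: z))

theorem It.append {m : ℕ} {C : Set (List Lt)} {w w' : List Lb} {z z' : List Lt}
    (h : It m C w z) (h' : It m C w' z') : It m C (w ++ w') (z ++ z') := by
  induction h with
  | nil => simpa using h'
  | lab x _ ih => exact It.lab x ih
  | blk hu _ ih => simpa using It.blk hu ih

theorem It.split {m : ℕ} {C : Set (List Lt)} {w w1 w2 : List Lb} {z : List Lt}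
    (h : It m C w z) (hw : w = w1 ++ w2) : ∃ z1 z2, z = z1 ++ z2 ∧ It m C w1 z1 ∧
      It m C w2 z2 := by
  induction h generalizing w1 with
  | nil =>
    obtain ⟨rfl, rfl⟩ := List.append_eq_nil_iff.1 hw.symm
    exact ⟨[], [], rfl, It.nil, It.nil⟩
  | @lab x w z hz ih =>
    cases w1 with
    | nil => exact ⟨[], Lt.l x :: z, rfl, It.nil, by
        rw [List.nil_append] at hw; rw [← hw]; exact It.lab x hz⟩
    | cons y w1 =>
      simp only [List.cons_append, List.cons.injEq] at hw
      obtain ⟨rfl, hw⟩ := hw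
      obtain ⟨z1, z2, rfl, h1, h2⟩ := ih hw
      exact ⟨Lt.l x :: z1, z2, rfl, It.lab x h1, h2⟩
  | @blk u z w hu _ ih =>
    obtain ⟨z1, z2, rfl, h1, h2⟩ := ih hw
    exact ⟨Lt.bo m :: (u ++ Lt.bc m :: z1), z2, by simp, It.blk hu h1, h2⟩

theorem It.single {m : ℕ} {C : Set (List Lt)} {w : List Lb} {x : Lb} {z : List Lt}
    (h : It m C w z) (hw : w = [x]) : ∃ z1 z2, z = z1 ++ Lt.l x :: z2 ∧ It m C [] z1 ∧
      It m C [] z2 := by
  induction h with
  | nil => simp at hw
  | @lab y w z hz ih =>
    simp only [List.cons.injEq] at hw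
    obtain ⟨rfl, rfl⟩ := hw
    exact ⟨[], z, rfl, It.nil, hz⟩
  | @blk u z w hu _ ih =>
    obtain ⟨z1, z2, rfl, h1, h2⟩ := ih hw
    exact ⟨Lt.bo m :: (u ++ Lt.bc m :: z1), z2, by simp, It.blk hu h1, h2⟩

theorem It.of_SpL {m : ℕ} {C : Set (List Lt)} {z : List Lt} (h : SpL m C z) :
    ∃ w, P0 w ∧ It m C w z := by
  induction h with
  | nil => exact ⟨[], P0.nil, It.nil⟩
  | lab b _ ih =>
    obtain ⟨w, hw, hz⟩ := ih
    exact ⟨_, P0.lab b hw, It.lab _ (hz.append (It.lab _ It.nil))⟩
  | left hu _ ih =>
    obtain ⟨w, hw, hz⟩ := ih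
    exact ⟨w, hw, It.blk hu hz⟩
  | right _ hu ih =>
    obtain ⟨w, hw, hz⟩ := ih
    refine ⟨w, hw, ?_⟩
    have := hz.append (It.blk hu It.nil)
    simpa using this

theorem SpL.blocks_left {m : ℕ} {C : Set (List Lt)} {w : List Lb} {z z' : List Lt}
    (h : It m C w z) (hw : w = []) (hz : SpL m C z') : SpL m C (z ++ z') := by
  induction h with
  | nil => simpa using hz
  | lab x _ _ => simp at hw
  | blk hu _ ih =>
    have := SpL.left hu (ih hw)
    simpa using this

theorem SpL.blocks_right {m : ℕ} {C : Set (List Lt)} {w : List Lb} {z z' : List Lt}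
    (h : It m C w z) (hw : w = []) (hz : SpL m C z') : SpL m C (z' ++ z) := by
  induction h generalizing z' with
  | nil => simpa using hz
  | lab x _ _ => simp at hw
  | blk hu _ ih =>
    have := ih hw (SpL.right hz hu)
    simpa using this

theorem SpL.of_It {m : ℕ} {C : Set (List Lt)} {w : List Lb} (hw : P0 w) :
    ∀ {z : List Lt}, It m C w z → SpL m C z := by
  induction hw with
  | nil =>
    intro z hz
    have := SpL.blocks_left hz rfl (SpL.nil (j := m) (C := C))
    simpa using this
  | @lab b w _ ih =>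
    intro z hz
    obtain ⟨z1, z2, rfl, h1, h2⟩ := hz.split (w1 := [Lb.o b]) (w2 := w ++ [Lb.c b]) rfl
    obtain ⟨z3, z4, rfl, h3, h4⟩ := h1.single rfl
    obtain ⟨z5, z6, rfl, h5, h6⟩ := h2.split rfl
    obtain ⟨z7, z8, rfl, h7, h8⟩ := h6.single rfl
    have e1 : It m C w (z4 ++ z5 ++ z7) := by
      have := (h4.append h5).append h7
      simpa using this
    have e2 := SpL.blocks_left h3 rfl (SpL.blocks_right h8 rfl (SpL.lab b (ih e1)))
    simpa using e2

/-! ### The substitution step -/

section Subst

variable {α β Q : Type} (m : ℕ) (E : Q → Option Lb → Option α → Q → Prop)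
  {Qa : α → Type} (Ea : ∀ a, Qa a → Option Lt → Option β → Qa a → Prop)
  (Ia Fa : ∀ a, Set (Qa a))

/-- States of the composed transducer. -/
inductive ST (Q : Type) {α : Type} (Qa : α → Type) : Type
  | top (q : Q) : ST Q Qa
  | pend (q : Q) (a : α) : ST Q Qa
  | inn (q : Q) (a : α) (s : Qa a) : ST Q Qa

instance [Finite Q] [Finite α] [∀ a, Finite (Qa a)] : Finite (ST Q Qa) := by
  let f : ST Q Qa → Q ⊕ ((Q × α) ⊕ (Q × (Σ a, Qa a))) := fun s => match s with
    | ST.top q => Sum.inl q
    | ST.pend q a => Sum.inr (Sum.inl (q, a))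
    | ST.inn q a s => Sum.inr (Sum.inr (q, ⟨a, s⟩))
  refine Finite.of_injective f ?_
  intro s t h
  cases s <;> cases t <;> simp [f] at h
  · subst h; rfl
  · obtain ⟨rfl, rfl⟩ := h; rfl
  · obtain ⟨rfl, rfl, h⟩ := h
    have := eq_of_heq h
    subst this; rfl

/-- Edges of the composed transducer. -/
inductive SE : ST Q Qa → Option Lt → Option β → ST Q Qa → Prop
  | tt {q q' : Q} {x : Option Lb} : E q x none q' → SE (ST.top q) (x.map Lt.l) none (ST.top q')
  | tp {q q' : Q} {x : Option Lb} {a : α} : E q x (some a) q' →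
      SE (ST.top q) (x.map Lt.l) none (ST.pend q' a)
  | pi {q : Q} {a : α} {i : Qa a} : i ∈ Ia a →
      SE (ST.pend q a) (some (Lt.bo m)) none (ST.inn q a i)
  | ii {q : Q} {a : α} {s s' : Qa a} {y : Option Lt} {b : Option β} : Ea a s y b s' →
      y ≠ some (Lt.bo m) → y ≠ some (Lt.bc m) → SE (ST.inn q a s) y b (ST.inn q a s')
  | it {q : Q} {a : α} {f : Qa a} : f ∈ Fa a →
      SE (ST.inn q a f) (some (Lt.bc m)) none (ST.top q)

variable {m E Ea Ia Fa}

theorem innUp {q : Q} {a : α} {n : ℕ} {s s' : Qa a} {u : List Lt} {y : List β}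
    (h : NP (Ea a) n s u y s') (h1 : Lt.bo m ∉ u) (h2 : Lt.bc m ∉ u) :
    NP (SE m E Ea Ia Fa) n (ST.inn q a s) u y (ST.inn q a s') := by
  induction h with
  | nil s => exact NP.nil _
  | @cons n s s' s'' x b u v he _ ih =>
    refine NP.cons (SE.ii he ?_ ?_) (ih ?_ ?_)
    · rintro rfl; simp at h1
    · rintro rfl; simp at h2
    · intro h; exact h1 (List.mem_append_right _ h)
    · intro h; exact h2 (List.mem_append_right _ h)

theorem innDown {q q' : Q} {a : α} : ∀ {n : ℕ} {s : Qa a} {u z : List Lt} {y : List β},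
    NP (SE m E Ea Ia Fa) n (ST.inn q a s) (u ++ Lt.bc m :: z) y (ST.top q') →
    Lt.bo m ∉ u → Lt.bc m ∉ u → ∃ s' n1 n2 y1 y2, s' ∈ Fa a ∧ NP (Ea a) n1 s u y1 s' ∧
      NP (SE m E Ea Ia Fa) n2 (ST.top q) z y2 (ST.top q') ∧ y = y1 ++ y2 ∧ n2 < n := by
  intro n
  induction n with
  | zero =>
    intro s u z y h _ _
    generalize hw : u ++ Lt.bc m :: z = w at h
    generalize hs : ST.inn (Q := Q) (Qa := Qa) q a s = s0 at h
    generalize ht : ST.top (Q := Q) (Qa := Qa) q' = t0 at h
    cases h with
    | nil => simp at hw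
  | succ n ih =>
    intro s u z y h h1 h2
    generalize hw : u ++ Lt.bc m :: z = w at h
    cases h with
    | @cons _ _ s1 _ x b w' v he hp =>
      cases he with
      | @ii _ _ _ s' _ _ he hx1 hx2 =>
        cases x with
        | none =>
          simp only [Option.toList_none, List.nil_append] at hw
          rw [← hw] at hp
          obtain ⟨s2, n1, n2, y1, y2, k1, k2, k3, k4, k5⟩ := ih hp h1 h2
          refine ⟨s2, n1 + 1, n2, b.toList ++ y1, y2, k1, ?_, k3, by simp [k4], by omega⟩
          exact NP.cons he k2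
        | some x =>
          cases u with
          | nil =>
            simp only [List.nil_append, Option.toList_some, List.cons_append,
              List.cons.injEq] at hw
            obtain ⟨rfl, _⟩ := hw
            exact absurd rfl hx2
          | cons x' u =>
            simp only [Option.toList_some, List.cons_append, List.nil_append,
              List.cons.injEq] at hw
            obtain ⟨rfl, hw⟩ := hw
            rw [← hw] at hp
            obtain ⟨s2, n1, n2, y1, y2, k1, k2, k3, k4, k5⟩ := ih hp
              (fun h => h1 (List.mem_cons_of_mem _ h)) (fun h => h2 (List.mem_cons_of_mem _ h))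
            refine ⟨s2, n1 + 1, n2, b.toList ++ y1, y2, k1, ?_, k3, by simp [k4], by omega⟩
            exact NP.cons he k2
      | it hf =>
        cases u with
        | nil =>
          simp only [List.nil_append, Option.toList_some, List.cons_append,
              List.cons.injEq, true_and] at hw
          rw [← hw] at hp
          exact ⟨s, 0, n, [], v, hf, NP.nil _, hp, by simp, by omega⟩
        | cons x' u =>
          simp only [Option.toList_some, List.cons_append, List.nil_append,
              List.cons.injEq] at hw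
          obtain ⟨rfl, hw⟩ := hw
          exact absurd (by simp) h2

variable {σ : α → Language β}

theorem up (hσ : ∀ a, σ a = {v | ∃ u ∈ Lv m, ∃ i ∈ Ia a, ∃ f ∈ Fa a, ∃ n, NP (Ea a) n i u v f})
    {n : ℕ} {q q' : Q} {w : List Lb} {as : List α} (h : NP E n q w as q') :
    ∀ y ∈ (as.map σ).prod, ∃ z n', It m (Lv m) w z ∧
      NP (SE m E Ea Ia Fa) n' (ST.top q) z y (ST.top q') := by
  induction h with
  | nil q =>
    intro y hy
    have : y = [] := by simpa using hy
    subst this
    exact ⟨[], 0, It.nil, NP.nil _⟩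
  | @cons n q q1 q2 x b w as he _ ih =>
    intro y hy
    cases b with
    | none =>
      obtain ⟨z, n', hz, hn⟩ := ih y (by simpa using hy)
      have hc := NP.cons (SE.tt he) hn
      cases x with
      | none => exact ⟨z, n' + 1, by simpa using hz, by simpa using hc⟩
      | some x => exact ⟨Lt.l x :: z, n' + 1, It.lab x hz, by simpa using hc⟩
    | some a =>
      simp only [Option.toList_some, List.cons_append, List.nil_append, List.map_cons,
        List.prod_cons, Language.mem_mul] at hy
      obtain ⟨y1, hy1, y2, hy2, rfl⟩ := hy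
      rw [hσ a] at hy1
      obtain ⟨u, hu, i, hi, f, hf, n1, hn1⟩ := hy1
      obtain ⟨z, n', hz, hn⟩ := ih y2 hy2
      have l1 : Lt.bo m ∉ u := fun h => absurd (Lv_letters m u hu m (Or.inl h)) (lt_irrefl _)
      have l2 : Lt.bc m ∉ u := fun h => absurd (Lv_letters m u hu m (Or.inr h)) (lt_irrefl _)
      have hin := innUp (m := m) (E := E) (Ea := Ea) (Ia := Ia) (Fa := Fa) (q := q1) hn1 l1 l2
      have h1 := NP.cons (SE.pi (q := q1) (E := E) (Ea := Ea) (Fa := Fa) hi)
        (hin.trans (NP.cons (SE.it hf) hn))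
      have h2 := NP.cons (SE.tp he) h1
      cases x with
      | none => exact ⟨_, _, It.blk hu hz, by simpa using h2⟩
      | some x => exact ⟨_, _, It.lab x (It.blk hu hz), by simpa using h2⟩

theorem down (hσ : ∀ a, σ a = {v | ∃ u ∈ Lv m, ∃ i ∈ Ia a, ∃ f ∈ Fa a, ∃ n, NP (Ea a) n i u v f}) :
    ∀ (n : ℕ) {q q' : Q} {w : List Lb} {z : List Lt} {y : List β},
      NP (SE m E Ea Ia Fa) n (ST.top q) z y (ST.top q') → It m (Lv m) w z →
      ∃ (as : List α) (n' : ℕ), NP E n' q w as q' ∧ y ∈ (as.map σ).prod := by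
  intro n
  induction n using Nat.strong_induction_on with
  | _ n ih =>
    intro q q' w z y h hit
    cases h with
    | nil =>
      cases hit
      exact ⟨[], 0, NP.nil _, by simp⟩
    | @cons n _ s1 _ x b z1 y1 he hp =>
      cases he with
      | @tt _ q1 x he =>
        cases x with
        | none =>
          obtain ⟨as, n', h1, h2⟩ := ih n (by omega) hp (by simpa using hit)
          refine ⟨as, n' + 1, ?_, by simpa using h2⟩
          simpa using NP.cons he h1
        | some x =>
          simp only [Option.map_some, Option.toList_some, List.cons_append,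
            List.nil_append] at hit
          cases hit with
          | @lab _ w1 _ hit =>
            obtain ⟨as, n', h1, h2⟩ := ih n (by omega) hp hit
            refine ⟨as, n' + 1, ?_, by simpa using h2⟩
            simpa using NP.cons he h1
      | @tp _ q1 x a he =>
        -- the pending state must read an opening bracket
        obtain ⟨w1, hw1, hit1⟩ : ∃ w1, w = x.toList ++ w1 ∧ It m (Lv m) w1 z1 := by
          cases x with
          | none => exact ⟨w, by simp, by simpa using hit⟩
          | some x =>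
            simp only [Option.map_some, Option.toList_some, List.cons_append,
              List.nil_append] at hit
            cases hit with
            | @lab _ w1 _ hit => exact ⟨w1, by simp, hit⟩
        cases hp with
        | @cons n2 _ s2 _ x2 b2 z2 y2 he2 hp2 =>
          cases he2 with
          | @pi _ _ i hi =>
            simp only [Option.toList_some, List.cons_append, List.nil_append] at hit1
            cases hit1 with
            | @blk u z3 _ hu hit3 =>
              have l1 : Lt.bo m ∉ u :=
                fun h => absurd (Lv_letters m u hu m (Or.inl h)) (lt_irrefl _)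
              have l2 : Lt.bc m ∉ u :=
                fun h => absurd (Lv_letters m u hu m (Or.inr h)) (lt_irrefl _)
              obtain ⟨s', n1, n3, y3, y4, k1, k2, k3, rfl, k5⟩ := innDown hp2 l1 l2
              obtain ⟨as, n', h1, h2⟩ := ih n3 (by omega) k3 hit3
              refine ⟨a :: as, n' + 1, ?_, ?_⟩
              · rw [hw1]
                simpa using NP.cons he h1
              · simp only [Option.toList_none, List.nil_append, List.map_cons, List.prod_cons,
                  Language.mem_mul]
                refine ⟨y3, ?_, y4, h2, rfl⟩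
                rw [hσ a]
                exact ⟨u, hu, i, hi, s', k1, n1, k2⟩

end Subst

/-- The substitution step: a palindrome image substituted by level `m` images is a level `m+1`
image. -/
theorem FL_subst {α β Q : Type} [Finite α] [Finite Q] {m : ℕ}
    (E : Q → Option Lb → Option α → Q → Prop) (I F : Set Q) (σ : α → Language β)
    (hσ : ∀ a, FL m (σ a)) :
    FL (m + 1) (substitute σ {v | ∃ u, P0 u ∧ ∃ i ∈ I, ∃ f ∈ F, ∃ n, NP E n i u v f}) := by
  choose Qa hfin Ea Ia Fa hE using hσ
  refine ⟨ST Q Qa, inferInstance, SE m E Ea Ia Fa, {s | ∃ i ∈ I, s = ST.top i},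
    {s | ∃ f ∈ F, s = ST.top f}, ?_⟩
  ext y
  constructor
  · rintro ⟨as, ⟨w, hw, i, hi, f, hf, n, hn⟩, hy⟩
    obtain ⟨z, n', hz, hn'⟩ := up hE hn y hy
    exact ⟨z, SpL.of_It hw hz, _, ⟨i, hi, rfl⟩, _, ⟨f, hf, rfl⟩, n', hn'⟩
  · rintro ⟨z, hz, _, ⟨i, hi, rfl⟩, _, ⟨f, hf, rfl⟩, n, hn⟩
    obtain ⟨w, hw, hit⟩ := It.of_SpL hz
    obtain ⟨as, n', h1, h2⟩ := down hE n hn hit
    exact ⟨as, ⟨w, hw, i, hi, f, hf, n', h1⟩, h2⟩

/-- A transducer with one edge. -/
def oneE {γ β : Type} (b : β) (s : Bool) (x : Option γ) (o : Option β) (t : Bool) : Prop :=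
  s = false ∧ x = none ∧ o = some b ∧ t = true

theorem oneE_path {γ β : Type} {b : β} {n : ℕ} {u : List γ} {v : List β}
    (h : NP (oneE (γ := γ) b) n false u v true) : u = [] ∧ v = [b] := by
  cases h with
  | @cons n _ s1 _ x o u v he hp =>
    obtain ⟨_, rfl, rfl, rfl⟩ := he
    cases hp with
    | nil => simp
    | cons he2 _ =>
      obtain ⟨h, _⟩ := he2
      simp at h

theorem FL_single {β : Type} (b : β) : FL 0 ({[b]} : Language β) := by
  refine ⟨Bool, inferInstance, oneE b, {false}, {true}, ?_⟩
  ext v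
  constructor
  · intro hv
    have hv' : v = [b] := hv
    subst hv'
    exact ⟨[], SpL.nil, false, rfl, true, rfl, 1, NP.single (a := none) (b := some b)
      ⟨rfl, rfl, rfl, rfl⟩⟩
  · rintro ⟨u, hu, _, rfl, _, rfl, n, hn⟩
    exact (oneE_path hn).2

theorem FL_succ {β : Type} {m : ℕ} {K : Language β} (h : FL m K) : FL (m + 1) K := by
  have := FL_subst (α := Unit) (Q := Bool) (oneE ()) {false} {true} (fun _ => K) (fun _ => h)
  convert this using 1
  ext v
  constructor
  · intro hv
    refine ⟨[()], ⟨[], P0.nil, false, rfl, true, rfl, 1,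
      NP.single (a := none) (b := some ()) ⟨rfl, rfl, rfl, rfl⟩⟩, ?_⟩
    simpa using hv
  · rintro ⟨as, ⟨w, _, _, rfl, _, rfl, n, hn⟩, hv⟩
    obtain ⟨_, rfl⟩ := oneE_path hn
    simpa using hv

theorem FL_mono {β : Type} {m m' : ℕ} (hm : m ≤ m') {K : Language β} (h : FL m K) :
    FL m' K := by
  induction hm with
  | refl => exact h
  | step _ ih => exact FL_succ ih

end Pool.Agent.H31.Cone
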