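import Mathlib
import Pool.Agent.H31.Cone.CF
import Pool.Agent.H31.Cone.Pos

namespace Pool.Agent.H31.Cone

section Sym

variable {α N : Type}

/-- Terminals before the first nonterminal. -/
def uOf : List (Symbol α N) → List α
  | [] => []
  | Symbol.terminal a :: s => a :: uOf s
  | Symbol.nonterminal _ :: _ => []

/-- All terminals. -/
def tOf : List (Symbol α N) → List α
  | [] => []
  | Symbol.terminal a :: s => a :: tOf s
  | Symbol.nonterminal _ :: s => tOf s

/-- The first nonterminal. -/
def nOf : List (Symbol α N) → Option N
  | [] => none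
  | Symbol.terminal _ :: s => nOf s
  | Symbol.nonterminal A :: _ => some A

/-- Terminals after the first nonterminal. -/
def vOf : List (Symbol α N) → List α
  | [] => []
  | Symbol.terminal _ :: s => vOf s
  | Symbol.nonterminal _ :: s => tOf s

theorem tOf_form (s : List (Symbol α N)) (h : s.countP isNonterminal = 0) :
    s = (tOf s).map Symbol.terminal := by
  induction s with
  | nil => rfl
  | cons x s ih =>
    cases x with
    | terminal a =>
      simp only [List.countP_cons, isNonterminal, Bool.false_eq_true, if_false, add_zero] at h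
      simp only [tOf, List.map_cons, List.cons.injEq, true_and]
      exact ih h
    | nonterminal A => simp [isNonterminal] at h

theorem lin_form (s : List (Symbol α N)) (h : s.countP isNonterminal ≤ 1) :
    (nOf s = none ∧ s = (uOf s).map Symbol.terminal ∧ vOf s = []) ∨
    (∃ A, nOf s = some A ∧
      s = (uOf s).map Symbol.terminal ++ Symbol.nonterminal A :: (vOf s).map Symbol.terminal) := by
  induction s with
  | nil => left; exact ⟨rfl, rfl, rfl⟩
  | cons x s ih =>
    cases x with
    | terminal a =>
      simp only [List.countP_cons, isNonterminal, Bool.false_eq_true, if_false, add_zero] at h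
      rcases ih h with ⟨h1, h2, h3⟩ | ⟨A, h1, h2⟩
      · left
        refine ⟨h1, ?_, h3⟩
        simp only [uOf, List.map_cons, List.cons.injEq, true_and]
        exact h2
      · right
        refine ⟨A, h1, ?_⟩
        simp only [uOf, vOf, List.map_cons, List.cons_append, List.cons.injEq, true_and]
        exact h2
    | nonterminal A =>
      right
      refine ⟨A, rfl, ?_⟩
      simp only [List.countP_cons, isNonterminal, if_true] at h
      simp only [uOf, vOf, List.map_nil, List.nil_append, List.cons.injEq, true_and]
      exact tOf_form s (by omega)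

theorem mem_formL_ts (Sem : N → Language α) (u : List α) (s : List (Symbol α N)) (x : List α) :
    x ∈ formL Sem (u.map Symbol.terminal ++ s) ↔ ∃ y ∈ formL Sem s, x = u ++ y := by
  induction u generalizing x with
  | nil => simp
  | cons a u ih =>
    rw [List.map_cons, List.cons_append, mem_formL_t]
    constructor
    · rintro ⟨y, hy, rfl⟩
      obtain ⟨z, hz, rfl⟩ := (ih y).1 hy
      exact ⟨z, hz, rfl⟩
    · rintro ⟨y, hy, rfl⟩
      exact ⟨u ++ y, (ih _).2 ⟨y, hy, rfl⟩, rfl⟩

theorem mem_formL_ts' (Sem : N → Language α) (u : List α) (x : List α) :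
    x ∈ formL Sem (u.map Symbol.terminal) ↔ x = u := by
  have := mem_formL_ts Sem u [] x
  rw [List.append_nil] at this
  rw [this]
  constructor
  · rintro ⟨y, hy, rfl⟩
    rw [mem_formL_nil] at hy
    subst hy; simp
  · rintro rfl
    exact ⟨[], by rw [mem_formL_nil], by simp⟩

end Sym

section Lin

variable {α : Type} (g : ContextFreeGrammar α)

/-- Linear derivations. -/
inductive LD : g.NT → List α → Prop
  | stop {r : ContextFreeRule α g.NT} : r ∈ g.rules → nOf r.output = none →
      LD r.input (uOf r.output)
  | step {r : ContextFreeRule α g.NT} {A : g.NT} {w : List α} : r ∈ g.rules →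
      nOf r.output = some A → LD A w → LD r.input (uOf r.output ++ w ++ vOf r.output)

variable {g}

theorem Ders.ts {s : List (Symbol α g.NT)} {w : List α} (u : List α) (h : Ders g s w) :
    Ders g (u.map Symbol.terminal ++ s) (u ++ w) := by
  induction u with
  | nil => simpa using h
  | cons a u ih => exact Ders.t a ih

theorem LD.mem_language (hg : ∀ r ∈ g.rules, r.output.countP isNonterminal ≤ 1)
    {A : g.NT} {w : List α} (h : LD g A w) : Der g A w := by
  induction h with
  | @stop r hr hn =>
    apply Der.rule hr
    rcases lin_form r.output (hg r hr) with ⟨_, h2, _⟩ | ⟨A, h1, _⟩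
    · rw [h2]
      have := Ders.ts (g := g) (uOf r.output) Ders.nil
      rw [List.append_nil, List.append_nil] at this
      rw [← h2] at this ⊢
      exact this
    · rw [h1] at hn; simp at hn
  | @step r A w hr hn _ ih =>
    apply Der.rule hr
    rcases lin_form r.output (hg r hr) with ⟨h1, _, _⟩ | ⟨B, h1, h2⟩
    · rw [h1] at hn; simp at hn
    · have hB : B = A := by rw [h1] at hn; exact Option.some.inj hn
      subst hB
      have e1 := Ders.ts (g := g) (vOf r.output) Ders.nil
      rw [List.append_nil, List.append_nil] at e1
      have e2 := Ders.ts (uOf r.output) (Ders.n ih e1)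
      rw [← h2] at e2
      rw [List.append_assoc]
      exact e2

theorem language_eq_LD (hg : ∀ r ∈ g.rules, r.output.countP isNonterminal ≤ 1)
    (w : List α) : w ∈ g.language ↔ LD g g.initial w := by
  constructor
  · intro hw
    let Sem : g.NT → Language α := fun A => {w | LD g A w}
    have := language_le (g := g) Sem ?_ hw
    · exact this
    · intro r hr x hx
      change LD g r.input x
      rcases lin_form r.output (hg r hr) with ⟨h1, h2, _⟩ | ⟨B, h1, h2⟩
      · rw [h2, mem_formL_ts'] at hx
        subst hx
        exact LD.stop hr h1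
      · rw [h2, mem_formL_ts] at hx
        obtain ⟨y, hy, rfl⟩ := hx
        rw [mem_formL_n] at hy
        obtain ⟨z, hz, t, ht, rfl⟩ := hy
        rw [mem_formL_ts'] at ht
        subst ht
        rw [← List.append_assoc]
        exact LD.step hr h1 hz
  · intro h
    exact LD.mem_language hg h

end Lin

/-! ### Codes -/

theorem P0.form {z : List Lb} (h : P0 z) : ∃ l : List Bool,
    z = l.map Lb.o ++ l.reverse.map Lb.c := by
  induction h with
  | nil => exact ⟨[], rfl⟩
  | lab b _ ih =>
    obtain ⟨l, rfl⟩ := ih
    exact ⟨b :: l, by simp⟩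

theorem P0.wrap {z : List Lb} (h : P0 z) (l : List Bool) :
    P0 (l.map Lb.o ++ z ++ l.reverse.map Lb.c) := by
  induction l with
  | nil => simpa using h
  | cons b l ih =>
    have := P0.lab b ih
    simpa using this

theorem o_c_split {l l' : List Bool} {m m' : List Bool}
    (h : l.map Lb.o ++ m.map Lb.c = l'.map Lb.o ++ m'.map Lb.c) : l = l' ∧ m = m' := by
  induction l generalizing l' with
  | nil =>
    cases l' with
    | nil =>
      refine ⟨rfl, ?_⟩
      simp only [List.map_nil, List.nil_append] at h
      exact List.map_injective_iff.2 (fun a b h => by simpa using h) h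
    | cons b l' =>
      exfalso
      cases m with
      | nil => simp at h
      | cons a m => simp at h
  | cons a l ih =>
    cases l' with
    | nil =>
      exfalso
      cases m' with
      | nil => simp at h
      | cons a m => simp at h
    | cons b l' =>
      simp only [List.map_cons, List.cons_append, List.cons.injEq, Lb.o.injEq] at h
      obtain ⟨rfl, h⟩ := h
      obtain ⟨rfl, rfl⟩ := ih h
      exact ⟨rfl, rfl⟩

section Code

variable {R : Type} (idx : R → ℕ)

/-- Unary code. -/
def code (r : R) : List Bool := List.replicate (idx r) false ++ [true]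

theorem code_split (hidx : Function.Injective idx) {r s : R} {x y : List Bool}
    (h : code idx r ++ x = code idx s ++ y) : r = s ∧ x = y := by
  have key : ∀ (i j : ℕ), List.replicate i false ++ true :: x = List.replicate j false ++ true :: y →
      i = j ∧ x = y := by
    intro i
    induction i with
    | zero =>
      intro j h
      cases j with
      | zero => simpa using h
      | succ j => simp [List.replicate_succ] at h
    | succ i ih =>
      intro j h
      cases j with
      | zero => simp [List.replicate_succ] at h
      | succ j =>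
        simp only [List.replicate_succ, List.cons_append, List.cons.injEq, true_and] at h
        obtain ⟨h1, h2⟩ := ih j h
        exact ⟨by omega, h2⟩
  have h' : List.replicate (idx r) false ++ true :: x = List.replicate (idx s) false ++ true :: y := by
    simpa [code] using h
  obtain ⟨h1, h2⟩ := key _ _ h'
  exact ⟨hidx h1, h2⟩

theorem code_inj (hidx : Function.Injective idx) {rs ss : List R}
    (h : rs.flatMap (code idx) = ss.flatMap (code idx)) : rs = ss := by
  induction rs generalizing ss with
  | nil =>
    cases ss with
    | nil => rfl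
    | cons s ss => simp [code] at h
  | cons r rs ih =>
    cases ss with
    | nil => simp [code] at h
    | cons s ss =>
      simp only [List.flatMap_cons] at h
      obtain ⟨rfl, h'⟩ := code_split idx hidx h
      rw [ih h']

end Code

/-! ### Linear languages as images -/

section LinT

variable {α : Type} (g : ContextFreeGrammar α) (idx : {r // r ∈ g.rules} → ℕ)

/-- Edges of the transducer of a linear grammar. -/
inductive LE : Option {r // r ∈ g.rules} × List Lb × List α × Option {r // r ∈ g.rules} → Prop
  | fw {r r' : {r // r ∈ g.rules}} : nOf r.1.output = some r'.1.input →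
      LE (some r, (code idx r).map Lb.o, uOf r.1.output, some r')
  | md {r : {r // r ∈ g.rules}} : nOf r.1.output = none →
      LE (some r, (code idx r).map Lb.o, uOf r.1.output, none)
  | bw {r : {r // r ∈ g.rules}} :
      LE (none, (code idx r).reverse.map Lb.c, vOf r.1.output, none)

/-- The transducer of a linear grammar. -/
def linT : Transducer Lb α where
  Q := Option {r // r ∈ g.rules}
  finQ := inferInstance
  edges := {e | LE g idx e}
  finEdges := by
    have h1 := Set.finite_range (fun p : {r // r ∈ g.rules} × {r // r ∈ g.rules} =>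
      (some p.1, (code idx p.1).map Lb.o, uOf p.1.1.output, some p.2))
    have h2 := Set.finite_range (fun r : {r // r ∈ g.rules} =>
      (some r, (code idx r).map Lb.o, uOf r.1.output, (none : Option {r // r ∈ g.rules})))
    have h3 := Set.finite_range (fun r : {r // r ∈ g.rules} =>
      ((none : Option {r // r ∈ g.rules}), (code idx r).reverse.map Lb.c, vOf r.1.output,
        (none : Option {r // r ∈ g.rules})))
    refine ((h1.union h2).union h3).subset ?_
    intro e he
    cases he with
    | @fw r r' h => exact Or.inl (Or.inl ⟨(r, r'), rfl⟩)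
    | @md r h => exact Or.inl (Or.inr ⟨r, rfl⟩)
    | @bw r => exact Or.inr ⟨r, rfl⟩
  init := {q | ∃ r : {r // r ∈ g.rules}, r.1.input = g.initial ∧ q = some r}
  final := {none}

variable {g idx}

theorem linT_trans {q q' q'' : (linT g idx).Q} {u u' : List Lb} {v v' : List α}
    (h : (linT g idx).Path q u v q') (h' : (linT g idx).Path q' u' v' q'') :
    (linT g idx).Path q (u ++ u') (v ++ v') q'' := by
  induction h with
  | nil => simpa using h'
  | cons he _ ih =>
    rw [List.append_assoc, List.append_assoc]
    exact Transducer.Path.cons he (ih h')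

theorem LD.to_path (hg : ∀ r ∈ g.rules, r.output.countP isNonterminal ≤ 1)
    {A : g.NT} {w : List α} (h : LD g A w) : ∃ (r : {r // r ∈ g.rules}) (z : List Lb),
    r.1.input = A ∧ P0 z ∧ (linT g idx).Path (some r) z w none := by
  induction h with
  | @stop r hr hn =>
    refine ⟨⟨r, hr⟩, _, rfl, P0.wrap P0.nil (code idx ⟨r, hr⟩), ?_⟩
    have hv : vOf r.output = [] := by
      rcases lin_form r.output (hg r hr) with ⟨_, _, h⟩ | ⟨A, h1, _⟩
      · exact h
      · rw [h1] at hn; simp at hn
    have e0 : (linT g idx).Path none ((code idx ⟨r, hr⟩).reverse.map Lb.c ++ [])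
        (vOf r.output ++ []) none :=
      Transducer.Path.cons (T := linT g idx) (q := none) (q' := none) (q'' := none)
        (LE.bw (g := g) (idx := idx) (r := ⟨r, hr⟩)) (Transducer.Path.nil (T := linT g idx) none)
    have e1 : (linT g idx).Path (some ⟨r, hr⟩) _ _ none :=
      Transducer.Path.cons (T := linT g idx) (LE.md (g := g) (idx := idx) (r := ⟨r, hr⟩) hn) e0
    simpa [hv] using e1
  | @step r A w hr hn _ ih =>
    obtain ⟨r', z, h1, h2, h3⟩ := ih
    refine ⟨⟨r, hr⟩, _, rfl, P0.wrap h2 (code idx ⟨r, hr⟩), ?_⟩
    have e1 : (linT g idx).Path none ((code idx ⟨r, hr⟩).reverse.map Lb.c ++ [])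
        (vOf r.output ++ []) none :=
      Transducer.Path.cons (T := linT g idx) (q := none) (q' := none) (q'' := none)
        (LE.bw (g := g) (idx := idx) (r := ⟨r, hr⟩)) (Transducer.Path.nil (T := linT g idx) none)
    have e2 := linT_trans h3 e1
    have e3 : (linT g idx).Path (some ⟨r, hr⟩) _ _ none :=
      Transducer.Path.cons (T := linT g idx) (LE.fw (g := g) (idx := idx) (r := ⟨r, hr⟩) (r' := r')
        (by rw [h1]; exact hn)) e2
    simpa using e3

/-- Chains of rules. -/
def Ch (r : {r // r ∈ g.rules}) : List {r // r ∈ g.rules} → Prop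
  | [] => nOf r.1.output = none
  | r' :: rs => nOf r.1.output = some r'.1.input ∧ Ch r' rs

theorem Ch.to_LD (hg : ∀ r ∈ g.rules, r.output.countP isNonterminal ≤ 1)
    {r : {r // r ∈ g.rules}} {rs : List {r // r ∈ g.rules}} (h : Ch r rs) :
    LD g r.1.input ((r :: rs).flatMap (fun r => uOf r.1.output) ++
      (r :: rs).reverse.flatMap (fun r => vOf r.1.output)) := by
  induction rs generalizing r with
  | nil =>
    have h' : nOf r.1.output = none := h
    have := LD.stop r.2 h'
    have hv : vOf r.1.output = [] := by
      rcases lin_form r.1.output (hg r.1 r.2) with ⟨_, _, h⟩ | ⟨A, h1, _⟩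
      · exact h
      · rw [h1] at h'; simp at h'
    simpa [hv] using this
  | cons r' rs ih =>
    obtain ⟨h1, h2⟩ := h
    have := LD.step r.2 h1 (ih h2)
    simpa using this

theorem path_bw {q q' : (linT g idx).Q} {z : List Lb} {w : List α}
    (h : (linT g idx).Path q z w q') (hq : q = none) : ∃ ss : List {r // r ∈ g.rules},
    z = (ss.flatMap (fun s => (code idx s).reverse)).map Lb.c ∧
      w = ss.flatMap (fun s => vOf s.1.output) := by
  induction h with
  | nil q => exact ⟨[], rfl, rfl⟩
  | cons he _ ih =>
    have he' : LE g idx _ := he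
    cases he' with
    | fw _ => simp at hq
    | md _ => simp at hq
    | @bw r =>
      obtain ⟨ss, h1, h2⟩ := ih rfl
      exact ⟨r :: ss, by simp [h1], by simp [h2]⟩

theorem path_fw {q q' : (linT g idx).Q} {z : List Lb} {w : List α}
    (h : (linT g idx).Path q z w q') (hq' : q' = none) : ∀ r, q = some r →
    ∃ (rs ss : List {r // r ∈ g.rules}), Ch r rs ∧
    z = ((r :: rs).flatMap (code idx)).map Lb.o ++
      (ss.flatMap (fun s => (code idx s).reverse)).map Lb.c ∧
      w = (r :: rs).flatMap (fun s => uOf s.1.output) ++ ss.flatMap (fun s => vOf s.1.output) := by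
  induction h with
  | nil q => intro r hr; rw [hr] at hq'; simp at hq'
  | @cons q q1 q2 u u' v v' he hp ih =>
    have he' : LE g idx _ := he
    intro r hr
    cases he' with
    | @fw r1 r2 h =>
      obtain rfl : r1 = r := Option.some.inj hr
      obtain ⟨rs, ss, h1, h2, h3⟩ := ih hq' r2 rfl
      exact ⟨r2 :: rs, ss, ⟨h, h1⟩, by simp [h2], by simp [h3]⟩
    | @md r1 h =>
      obtain rfl : r1 = r := Option.some.inj hr
      obtain ⟨ss, h1, h2⟩ := path_bw hp rfl
      exact ⟨[], ss, h, by simp [h1], by simp [h2]⟩
    | bw => simp at hr

theorem flatMap_code_reverse (ss : List {r // r ∈ g.rules}) :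
    (ss.flatMap (fun s => (code idx s).reverse)).reverse = ss.reverse.flatMap (code idx) := by
  induction ss with
  | nil => rfl
  | cons s ss ih => simp [ih]

/-- The language of palindromic labels. -/
def PP : Language Lb := {z | P0 z}

/-- Every linear language is an image of the language of palindromic labels. -/
theorem linear_image {M : Language α} (h : IsLinear M) :
    ∃ T : Transducer Lb α, M = T.image PP := by
  obtain ⟨g, hg, rfl⟩ := h
  obtain ⟨idx, hidx⟩ : ∃ idx : {r // r ∈ g.rules} → ℕ, Function.Injective idx := by
    refine ⟨fun r => (Finite.equivFin {r // r ∈ g.rules} r).val, ?_⟩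
    intro r s h
    exact (Finite.equivFin _).injective (Fin.ext h)
  refine ⟨linT g idx, ?_⟩
  ext w
  rw [language_eq_LD hg]
  constructor
  · intro h
    obtain ⟨r, z, h1, h2, h3⟩ := LD.to_path (idx := idx) hg h
    exact ⟨z, h2, some r, ⟨r, h1, rfl⟩, none, rfl, h3⟩
  · rintro ⟨z, hz, _, ⟨r, hr, rfl⟩, _, rfl, hp⟩
    obtain ⟨rs, ss, h1, h2, h3⟩ := path_fw hp rfl r rfl
    obtain ⟨l, hl⟩ := P0.form hz
    rw [hl] at h2
    obtain ⟨e1, e2⟩ := o_c_split h2
    have e3 : ss.reverse = r :: rs := by
      apply code_inj idx hidx
      rw [← flatMap_code_reverse, ← e2, List.reverse_reverse, e1]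
    have e4 : ss = (r :: rs).reverse := by rw [← e3, List.reverse_reverse]
    rw [h3, e4, ← hr]
    exact h1.to_LD hg

end LinT

end Pool.Agent.H31.Cone
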