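import Mathlib
import Pool.Agent.H31.Cone.CF
import Pool.Agent.H31.Cone.Norm

namespace Pool.Agent.H31.Cone

section

variable {Q : Type} (E : Q → Option (Option X) → Option Y → Q → Prop)

/-- Words written between the states `a` and `b` while reading a word of `C`. -/
def Out (C : Set (List X)) (a b : Q) : Set (List Y) :=
  {y | ∃ w ∈ C, ∃ n, NP E n a (w.map some) y b}

/-- If all words written are good, they contain only small tree words. -/
def Bdd (C : Set (List X)) : Prop :=
  ∀ a b, (∀ y ∈ Out E C a b, Good y) → ∃ h, ∀ y ∈ Out E C a b, ¬ tr h <:+: y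

/-- Steps for the spine closure. -/
inductive SSt (C : Set (List X)) : Q × Q → List Y → List Y → Q × Q → Prop
  | epsL {a a' b : Q} {o : Option Y} : E a none o a' → SSt C (a, b) o.toList [] (a', b)
  | epsR {a b b' : Q} {o : Option Y} : E b' none o b → SSt C (a, b) [] o.toList (a, b')
  | lab {a a' b b' : Q} {β : Bool} {o1 o2 : Option Y} : E a (some (some (X.o β))) o1 a' →
      E b' (some (some (X.c β))) o2 b → SSt C (a, b) o1.toList o2.toList (a', b')
  | blkL {a a1 a2 a' b : Q} {o1 o2 : Option Y} {y : List Y} : E a (some (some X.p)) o1 a1 →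
      y ∈ Out E C a1 a2 → E a2 (some (some X.q)) o2 a' →
      SSt C (a, b) (o1.toList ++ y ++ o2.toList) [] (a', b)
  | blkR {a b b1 b2 b' : Q} {o1 o2 : Option Y} {y : List Y} : E b' (some (some X.p)) o1 b1 →
      y ∈ Out E C b1 b2 → E b2 (some (some X.q)) o2 b →
      SSt C (a, b) [] (o1.toList ++ y ++ o2.toList) (a, b')

/-- Ends for the spine closure. -/
def SEn (i : Q × Q) (z : List Y) : Prop := i.1 = i.2 ∧ z = []

variable {E}

theorem SSt_sound {C : Set (List X)} {i j : Q × Q} {u v : List Y} (h : Ct (SSt E C) i u v j) :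
    ∀ (w : List X) (y : List Y) (n : ℕ), Sp C w → NP E n j.1 (w.map some) y j.2 →
      ∃ (w' : List X) (n' : ℕ), Sp C w' ∧ NP E n' i.1 (w'.map some) (u ++ y ++ v) i.2 := by
  induction h with
  | refl => intro w y n hw hn; exact ⟨w, n, hw, by simpa using hn⟩
  | @snoc a b p vp j0 j _ hs ih =>
    intro w y n hw hn
    have key : ∃ (w' : List X) (n' : ℕ), Sp C w' ∧
        NP E n' j0.1 (w'.map some) (p ++ y ++ vp) j0.2 := by
      cases hs with
      | epsL he => exact ⟨w, n + 1, hw, by simpa using NP.cons he hn⟩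
      | epsR he => exact ⟨w, n + 1, hw, by simpa using hn.trans (NP.single he)⟩
      | @lab a a' b b' β o1 o2 he1 he2 =>
        refine ⟨_, n + 1 + 1, Sp.lab β hw, ?_⟩
        have := NP.cons he1 (hn.trans (NP.single he2))
        simpa using this
      | blkL he1 hy he2 =>
        obtain ⟨c, hc, m, hm⟩ := hy
        refine ⟨_, m + (n + 1) + 1, Sp.left hc hw, ?_⟩
        have := NP.cons he1 (hm.trans (NP.cons he2 hn))
        simpa using this
      | blkR he1 hy he2 =>
        obtain ⟨c, hc, m, hm⟩ := hy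
        refine ⟨_, n + (m + 1 + 1), Sp.right hw hc, ?_⟩
        have := hn.trans (NP.cons he1 (hm.trans (NP.single he2)))
        simpa using this
    obtain ⟨w', n', hw', hn'⟩ := key
    obtain ⟨w2, n2, h2, h3⟩ := ih w' _ n' hw' hn'
    exact ⟨w2, n2, h2, by simpa using h3⟩

theorem Dr_sound {C : Set (List X)} {a b : Q} {y : List Y} (h : Dr (SSt E C) SEn (a, b) y) :
    y ∈ Out E {w | Sp C w} a b := by
  obtain ⟨u, v, j, z, h1, ⟨h2, rfl⟩, rfl⟩ := h
  have hn : NP E 0 j.1 (([] : List X).map some) [] j.2 := by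
    rw [← h2]; exact NP.nil _
  obtain ⟨w, n, hw, hn'⟩ := SSt_sound h1 [] [] 0 Sp.nil hn
  exact ⟨w, hw, n, hn'⟩

theorem Dr_epsL {C : Set (List X)} {n : ℕ} {a a0 b : Q} {u : List (Option X)} {y0 y : List Y}
    (h : NP E n a u y0 a0) (hu : u = []) (hd : Dr (SSt E C) SEn (a0, b) y) :
    Dr (SSt E C) SEn (a, b) (y0 ++ y) := by
  induction h with
  | nil => simpa using hd
  | @cons n q q' q'' x o u v he _ ih =>
    obtain ⟨h1, h2⟩ := List.append_eq_nil_iff.1 hu
    cases x with
    | some x => simp at h1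
    | none =>
      have := Dr.cons (SSt.epsL (b := b) he) (ih h2 hd)
      simpa using this

theorem Dr_epsR {C : Set (List X)} {n : ℕ} {a b b0 : Q} {u : List (Option X)} {y0 y : List Y}
    (h : NP E n b0 u y0 b) (hu : u = []) (hd : Dr (SSt E C) SEn (a, b0) y) :
    Dr (SSt E C) SEn (a, b) (y ++ y0) := by
  induction h generalizing y with
  | nil => simpa using hd
  | @cons n q q' q'' x o u v he _ ih =>
    obtain ⟨h1, h2⟩ := List.append_eq_nil_iff.1 hu
    cases x with
    | some x => simp at h1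
    | none =>
      have := ih h2 (Dr.cons (SSt.epsR (a := a) he) hd)
      simpa using this

theorem Dr_complete {C : Set (List X)} {w : List X} (hw : Sp C w) :
    ∀ {n : ℕ} {a b : Q} {y : List Y}, NP E n a (w.map some) y b →
      Dr (SSt E C) SEn (a, b) y := by
  induction hw with
  | nil =>
    intro n a b y h
    have := Dr_epsL (C := C) h rfl (Dr.base (St := SSt E C) (En := SEn) (i := (b, b)) (z := [])
      ⟨rfl, rfl⟩)
    simpa using this
  | @lab β w _ ih =>
    intro n a b y h
    rw [List.map_cons] at h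
    obtain ⟨n0, n1, s, s', v0, o1, v1, h1, h2, h3, rfl, _⟩ := h.peelLeft
    rw [List.map_append, List.map_cons, List.map_nil] at h3
    obtain ⟨m0, m1, t, t', w0, o2, w1, h4, h5, h6, rfl⟩ := h3.peelRight
    have := Dr_epsR h6 rfl (Dr_epsL h1 rfl (Dr.cons (SSt.lab h2 h5) (ih h4)))
    simpa using this
  | @left c w hc _ ih =>
    intro n a b y h
    rw [List.map_cons] at h
    obtain ⟨n0, n1, s, s', v0, o1, v1, h1, h2, h3, rfl, _⟩ := h.peelLeft
    rw [List.map_append, List.map_cons] at h3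
    obtain ⟨m1, m2, t, w1, w2, h4, h5, rfl, _⟩ := h3.split rfl
    obtain ⟨k0, k1, r, r', x0, o2, x1, h6, h7, h8, rfl, _⟩ := h5.peelLeft
    have hout : w1 ++ x0 ∈ Out E C s' r := ⟨c, hc, m1 + k0, by simpa using h4.trans h6⟩
    have := Dr_epsL h1 rfl (Dr.cons (SSt.blkL h2 hout h7) (ih h8))
    simpa using this
  | @right c w _ hc ih =>
    intro n a b y h
    have e : (w ++ X.p :: (c ++ [X.q])).map some =
        (w.map some ++ some X.p :: c.map some) ++ [some X.q] := by simp
    rw [e] at h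
    obtain ⟨n0, n1, s, s', v0, o2, v1, h1, h2, h3, rfl⟩ := h.peelRight
    obtain ⟨m1, m2, t, w1, w2, h4, h5, rfl, _⟩ := h1.split rfl
    obtain ⟨k0, k1, r, r', x0, o1, x1, h6, h7, h8, rfl, _⟩ := h5.peelLeft
    have hout : x1 ∈ Out E C r' s := ⟨c, hc, k1, h8⟩
    have hw : NP E (m1 + k0) a (w.map some) (w1 ++ x0) r := by simpa using h4.trans h6
    have := Dr_epsR h3 rfl (Dr.cons (SSt.blkR h7 hout h2) (ih hw))
    simpa using this

end

theorem uniform {J : Type} [Finite J] {P : J → ℕ → Prop}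
    (mono : ∀ j h h', h ≤ h' → P j h → P j h') (ex : ∀ j, ∃ h, P j h) : ∃ H, ∀ j, P j H := by
  choose f hf using ex
  obtain ⟨M, hM⟩ := (Set.finite_range f).bddAbove
  exact ⟨M, fun j => mono j _ _ (hM ⟨j, rfl⟩) (hf j)⟩

theorem short {h : ℕ} (hh : 1 ≤ h) {l : List Y} (hl : l.length ≤ 1) : ¬ tr h <:+: l := by
  intro H
  have := H.length_le
  have := tr_length h hh
  omega

theorem toList_short {α : Type} (o : Option α) : o.toList.length ≤ 1 := by
  cases o <;> simp

section

variable {Q : Type} [Finite Q] {E : Q → Option (Option X) → Option Y → Q → Prop}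

theorem Bdd_Sp {C : Set (List X)} (hC : Bdd E C) : Bdd E {w | Sp C w} := by
  intro a b hgood
  obtain ⟨h', hh'⟩ := uniform (J := Q × Q)
    (P := fun j h => (∀ y ∈ Out E C j.1 j.2, Good y) → ∀ y ∈ Out E C j.1 j.2, ¬ tr h <:+: y)
    (fun j h h' hle hP hg y hy hin => hP hg y hy ((tr_infix_of_le hle).trans hin))
    (fun j => by
      by_cases hg : ∀ y ∈ Out E C j.1 j.2, Good y
      · obtain ⟨h, hh⟩ := hC j.1 j.2 hg
        exact ⟨h, fun _ => hh⟩
      · exact ⟨0, fun hg' => absurd hg' hg⟩)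
  have hG : ∀ y, Dr (SSt E C) SEn (a, b) y → Good y := fun y hy => hgood y (Dr_sound hy)
  -- block pieces
  have blk : ∀ {α β : List Y} {j k : Q × Q} {c d : Q} {p s : List Y},
      Ct (SSt E C) (a, b) α β j → (∃ y, Dr (SSt E C) SEn k y) → p.length ≤ 1 → s.length ≤ 1 →
      (∀ y ∈ Out E C c d, SSt E C j (p ++ y ++ s) [] k ∨ SSt E C j [] (p ++ y ++ s) k) →
      ∀ y ∈ Out E C c d, ¬ tr (max h' 1 + 2) <:+: p ++ y ++ s := by
    intro α β j k c d p s hct hprod hp hs hst y hy hin
    have hg : ∀ y ∈ Out E C c d, Good y := by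
      intro y' hy'
      obtain ⟨yk, hyk⟩ := hprod
      rcases hst y' hy' with h1 | h1
      · refine Good.of_infix ?_ (hG _ (Dr.ctx hct (Dr.cons h1 hyk)))
        exact ⟨α ++ p, s ++ yk ++ β, by simp⟩
      · refine Good.of_infix ?_ (hG _ (Dr.ctx hct (Dr.cons h1 hyk)))
        exact ⟨α ++ yk ++ p, s ++ β, by simp⟩
    rcases split3 hin with h1 | h1 | h1
    · exact short (le_max_right _ _) hp h1
    · exact hh' (c, d) hg y hy ((tr_infix_of_le (le_max_left _ _)).trans h1)
    · exact short (le_max_right _ _) hs h1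
  obtain ⟨h, hh⟩ := keyLemma (St := SSt E C) (En := SEn) (a, b) hG (max h' 1 + 2)
    (by
      intro α β j u v k hct hs hprod
      have e1 : 1 ≤ max h' 1 + 2 := by omega
      have e0 : ¬ tr (max h' 1 + 2) <:+: [] := short e1 (by simp)
      cases hs with
      | epsL he => exact ⟨short e1 (toList_short _), e0⟩
      | epsR he => exact ⟨e0, short e1 (toList_short _)⟩
      | lab h1 h2 => exact ⟨short e1 (toList_short _), short e1 (toList_short _)⟩
      | blkL h1 h2 h3 =>
        exact ⟨blk hct hprod (toList_short _) (toList_short _)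
          (fun y hy => Or.inl (SSt.blkL h1 hy h3)) _ h2, e0⟩
      | blkR h1 h2 h3 =>
        exact ⟨e0, blk hct hprod (toList_short _) (toList_short _)
          (fun y hy => Or.inr (SSt.blkR h1 hy h3)) _ h2⟩)
    (by
      rintro α β j z _ ⟨_, rfl⟩
      exact short (by omega) (by simp))
  refine ⟨h, ?_⟩
  rintro y ⟨w, hw, n, hn⟩
  exact hh y (Dr_complete hw hn)

theorem Bdd_Sl (k : ℕ) : Bdd E (Sl k) := by
  induction k with
  | zero =>
    refine Bdd_Sp ?_
    intro a b _
    refine ⟨0, ?_⟩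
    rintro y ⟨w, hw, _⟩
    exact absurd hw (by simp)
  | succ k ih => exact Bdd_Sp ih

/-- Depths up to `k`, or undefined. -/
def DD (k : ℕ) : Type := {δ : Option ℕ // δ ∈ insert none (some '' Set.Iic k)}

instance (k : ℕ) : Finite (DD k) :=
  (((Set.finite_Iic k).image some).insert none).to_subtype

theorem sd_mem {k : ℕ} (δ : DD k) (x : X) : sd k δ.1 x ∈ insert none (some '' Set.Iic k) := by
  obtain ⟨δ, hδ⟩ := δ
  rcases hδ with rfl | ⟨d, hd, rfl⟩
  · left; simp
  · simp only
    cases h : sd k (some d) x with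
    | none => left; rfl
    | some e => right; exact ⟨e, sd_le hd h, rfl⟩

/-- Steps for words whose depth leaves the interval. -/
inductive NSt (E : Q → Option (Option X) → Option Y → Q → Prop) (k : ℕ) :
    Q × DD k → List Y → List Y → Q × DD k → Prop
  | eps {a a' : Q} {δ : DD k} {o : Option Y} : E a none o a' →
      NSt E k (a, δ) o.toList [] (a', δ)
  | rd {a a' : Q} {x : X} {δ δ' : DD k} {o : Option Y} : E a (some (some x)) o a' →
      sd k δ.1 x = δ'.1 → NSt E k (a, δ) o.toList [] (a', δ')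

/-- Ends for words whose depth leaves the interval. -/
def NEn (k : ℕ) (b : Q) (i : Q × DD k) (z : List Y) : Prop := i.1 = b ∧ i.2.1 = none ∧ z = []

theorem NSt_sound {k : ℕ} {b : Q} {i j : Q × DD k} {u v : List Y} (h : Ct (NSt E k) i u v j) :
    ∀ (w : List X) (y : List Y) (n : ℕ), dp k j.2.1 w = none → NP E n j.1 (w.map some) y b →
      ∃ (w' : List X) (n' : ℕ), dp k i.2.1 w' = none ∧
        NP E n' i.1 (w'.map some) (u ++ y ++ v) b := by
  induction h with
  | refl => intro w y n hw hn; exact ⟨w, n, hw, by simpa using hn⟩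
  | @snoc a b' p vp j0 j _ hs ih =>
    intro w y n hw hn
    have key : ∃ (w' : List X) (n' : ℕ), dp k j0.2.1 w' = none ∧
        NP E n' j0.1 (w'.map some) (p ++ y ++ vp) b := by
      cases hs with
      | eps he => exact ⟨w, n + 1, hw, by simpa using NP.cons he hn⟩
      | @rd a a' x δ δ' o he hδ =>
        refine ⟨x :: w, n + 1, ?_, by simpa using NP.cons he hn⟩
        rw [dp_cons, hδ]
        exact hw
    obtain ⟨w', n', hw', hn'⟩ := key
    obtain ⟨w2, n2, h2, h3⟩ := ih w' _ n' hw' hn'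
    exact ⟨w2, n2, h2, by simpa using h3⟩

theorem NSt_complete {k : ℕ} {n : ℕ} {a b : Q} {u : List (Option X)} {y : List Y}
    (h : NP E n a u y b) : ∀ (w : List X) (δ : DD k), u = w.map some → dp k δ.1 w = none →
      Dr (NSt E k) (NEn k b) (a, δ) y := by
  induction h with
  | nil q =>
    intro w δ hu hw
    have : w = [] := by simpa using hu.symm
    subst this
    exact Dr.base ⟨rfl, hw, rfl⟩
  | @cons n q q' q'' x o u v he _ ih =>
    intro w δ hu hw
    cases x with
    | none =>
      have := Dr.cons (NSt.eps (δ := δ) he) (ih w δ (by simpa using hu) hw)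
      simpa using this
    | some x =>
      cases w with
      | nil => simp at hu
      | cons x' w =>
        simp only [Option.toList_some, List.cons_append, List.nil_append, List.map_cons,
          List.cons.injEq] at hu
        obtain ⟨rfl, hu⟩ := hu
        have h1 := ih w ⟨sd k δ.1 x', sd_mem δ x'⟩ hu hw
        have := Dr.cons (NSt.rd (δ := δ) (δ' := ⟨sd k δ.1 x', sd_mem δ x'⟩) he rfl) h1
        simpa using this

theorem Bdd_none (k : ℕ) : Bdd E {w | dp k (some 0) w = none} := by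
  intro a b hgood
  let δ0 : DD k := ⟨some 0, Or.inr ⟨0, Nat.zero_le k, rfl⟩⟩
  have hG : ∀ y, Dr (NSt E k) (NEn k b) (a, δ0) y → Good y := by
    rintro y ⟨u, v, j, z, h1, ⟨h2, h3, rfl⟩, rfl⟩
    have hn : NP E 0 j.1 (([] : List X).map some) [] b := by
      rw [← h2]; exact NP.nil _
    obtain ⟨w, n, hw, hn'⟩ := NSt_sound h1 [] [] 0 h3 hn
    exact hgood _ ⟨w, hw, n, hn'⟩
  obtain ⟨h, hh⟩ := keyLemma (St := NSt E k) (En := NEn k b) (a, δ0) hG 1
    (by
      intro α β j u v k hct hs hprod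
      cases hs with
      | eps he => exact ⟨short le_rfl (toList_short _), short le_rfl (by simp)⟩
      | rd he _ => exact ⟨short le_rfl (toList_short _), short le_rfl (by simp)⟩)
    (by
      rintro α β j z _ ⟨_, _, rfl⟩
      exact short le_rfl (by simp))
  refine ⟨h, ?_⟩
  rintro y ⟨w, hw, n, hn⟩
  exact hh y (NSt_complete hn w δ0 rfl hw)

end

theorem not_inCone : ¬ InCone LL KK := by
  classical
  rintro ⟨T, hT⟩
  obtain ⟨Q, hQ, E, I, F, hE⟩ := exists_normal T
  rw [hE] at hT
  set N := Nat.card Q with hN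
  obtain ⟨H, hH⟩ := uniform (J := Fin (N + 1) × Q × Q)
    (P := fun j h =>
      ((∀ y ∈ Out E (Sl j.1) j.2.1 j.2.2, Good y) →
        ∀ y ∈ Out E (Sl j.1) j.2.1 j.2.2, ¬ tr h <:+: y) ∧
      ((∀ y ∈ Out E {w | dp j.1 (some 0) w = none} j.2.1 j.2.2, Good y) →
        ∀ y ∈ Out E {w | dp j.1 (some 0) w = none} j.2.1 j.2.2, ¬ tr h <:+: y))
    (fun j h h' hle hP =>
      ⟨fun hg y hy hin => hP.1 hg y hy ((tr_infix_of_le hle).trans hin),
       fun hg y hy hin => hP.2 hg y hy ((tr_infix_of_le hle).trans hin)⟩)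
    (fun j => by
      have e1 : ∃ h, (∀ y ∈ Out E (Sl j.1) j.2.1 j.2.2, Good y) →
          ∀ y ∈ Out E (Sl j.1) j.2.1 j.2.2, ¬ tr h <:+: y := by
        by_cases hg : ∀ y ∈ Out E (Sl j.1) j.2.1 j.2.2, Good y
        · obtain ⟨h, hh⟩ := Bdd_Sl (E := E) j.1 j.2.1 j.2.2 hg
          exact ⟨h, fun _ => hh⟩
        · exact ⟨0, fun hg' => absurd hg' hg⟩
      have e2 : ∃ h, (∀ y ∈ Out E {w | dp j.1 (some 0) w = none} j.2.1 j.2.2, Good y) →
          ∀ y ∈ Out E {w | dp j.1 (some 0) w = none} j.2.1 j.2.2, ¬ tr h <:+: y := by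
        by_cases hg : ∀ y ∈ Out E {w | dp j.1 (some 0) w = none} j.2.1 j.2.2, Good y
        · obtain ⟨h, hh⟩ := Bdd_none (E := E) j.1 j.2.1 j.2.2 hg
          exact ⟨h, fun _ => hh⟩
        · exact ⟨0, fun hg' => absurd hg' hg⟩
      obtain ⟨h1, hh1⟩ := e1
      obtain ⟨h2, hh2⟩ := e2
      exact ⟨max h1 h2,
        fun hg y hy hin => hh1 hg y hy ((tr_infix_of_le (le_max_left _ _)).trans hin),
        fun hg y hy hin => hh2 hg y hy ((tr_infix_of_le (le_max_right _ _)).trans hin)⟩)
  set z := List.replicate (N + 1) Y.pl ++ tr H ++ List.replicate (N + 1) Y.ql with hz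
  have hzK : z ∈ KK := mem_KK _ _
  have hex : ∃ n, ∃ u ∈ LL, ∃ i ∈ I, ∃ f ∈ F, NP E n i u z f := by
    rw [hT] at hzK
    obtain ⟨u, hu, i, hi, f, hf, n, hn⟩ := hzK
    exact ⟨n, u, hu, i, hi, f, hf, hn⟩
  obtain ⟨u, hu, i, hi, f, hf, hn⟩ := Nat.find_spec hex
  have hmin := fun m (hm : m < Nat.find hex) => Nat.find_min hex hm
  generalize Nat.find hex = n at hn hmin
  obtain ⟨k, w, rfl, hkw⟩ := hu
  obtain ⟨n1, n2, s, y1, y2, h1, h2, h3, h4⟩ := hn.split rfl
  have hLLmem : List.replicate k none ++ w.map some ∈ LL := mem_LL.2 hkw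
  -- the part reading `t^k` is short
  have hn1 : n1 < N := by
    by_contra hcon
    rw [not_lt] at hcon
    obtain ⟨m1, m2, m3, t, u1, u2, u3, v1, v2, v3, p1, p2, p3, e1, e2, e3, e4, e5⟩ :=
      h1.loop hcon
    have hu13 : u1 ++ u3 = List.replicate (u1 ++ u3).length none := by
      rw [List.eq_replicate_iff]
      refine ⟨rfl, ?_⟩
      intro b hb
      have : b ∈ List.replicate k (none : Option X) := by
        rw [e1]
        rcases List.mem_append.1 hb with hb | hb <;> simp [hb]
      exact (List.mem_replicate.1 this).2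
    have hk' : (u1 ++ u3).length ≤ k := by
      have := congrArg List.length e1
      simp at this ⊢
      omega
    have hmem := mem_LL_mono hk' hLLmem
    rw [← hu13] at hmem
    have hpath : NP E (m1 + m3 + n2) i ((u1 ++ u3) ++ w.map some) ((v1 ++ v3) ++ y2) f :=
      (p1.trans p3).trans h2
    have hK : (v1 ++ v3) ++ y2 ∈ KK := by
      rw [hT]
      exact ⟨_, hmem, i, hi, f, hf, _, hpath⟩
    have hlen : (v1 ++ v2).length ≤ N := by
      have a1 := p1.length_le.2
      have a2 := p2.length_le.2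
      simp
      omega
    have hz' : List.replicate (N + 1) Y.pl ++ (tr H ++ List.replicate (N + 1) Y.ql) =
        (v1 ++ v2) ++ (v3 ++ y2) := by
      have : z = (v1 ++ v2) ++ (v3 ++ y2) := by rw [h3, e2]; simp
      rw [← this, hz]; simp
    obtain ⟨c, hc1, hc2⟩ : ∃ c, List.replicate (N + 1) Y.pl = (v1 ++ v2) ++ c ∧
        v3 ++ y2 = c ++ (tr H ++ List.replicate (N + 1) Y.ql) := by
      rcases List.append_eq_append_iff.1 hz' with ⟨c, hc1, hc2⟩ | ⟨c, hc1, hc2⟩
      · exfalso
        have := congrArg List.length hc1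
        simp at this hlen
        omega
      · exact ⟨c, hc1, hc2⟩
    have hv2 : ∀ b ∈ v2, b = Y.pl := by
      intro b hb
      have : b ∈ List.replicate (N + 1) Y.pl := by rw [hc1]; simp [hb]
      exact (List.mem_replicate.1 this).2
    have hcnt1 : v2.count Y.pl = v2.length := List.count_eq_length.2 (fun b hb => (hv2 b hb).symm)
    have hcnt2 : v2.count Y.ql = 0 := by
      rw [List.count_eq_zero]
      intro hb
      have := hv2 _ hb
      simp at this
    have c1 := KK_count hK
    have c2 := KK_count hzK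
    rw [h3, e2] at c2
    simp only [List.count_append] at c1 c2
    have hv2nil : v2 = [] := List.length_eq_zero_iff.1 (by omega)
    refine hmin (m1 + m3 + n2) (by omega) ⟨_, hmem, i, hi, f, hf, ?_⟩
    have : z = (v1 ++ v3) ++ y2 := by rw [h3, e2, hv2nil]; simp
    rw [this]
    exact hpath
  have hk : k < N := by
    have := h1.length_le.1
    simp at this
    omega
  have hy1 : y1.length < N := by
    have := h1.length_le.2
    omega
  have hin : tr H <:+: y2 := by
    have hz' : List.replicate (N + 1) Y.pl ++ (tr H ++ List.replicate (N + 1) Y.ql) =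
        y1 ++ y2 := by
      rw [← h3, hz]; simp
    rcases List.append_eq_append_iff.1 hz' with ⟨c, hc1, hc2⟩ | ⟨c, hc1, hc2⟩
    · exfalso
      have := congrArg List.length hc1
      simp at this
      omega
    · exact ⟨c, List.replicate (N + 1) Y.ql, by rw [hc2]; simp⟩
  have hout : ∀ w' : List X, (w' ∈ SS ∨ dp k (some 0) w' = none) → ∀ n' y',
      NP E n' s (w'.map some) y' f → Good y' := by
    intro w' hw' n' y' hn'
    have : y1 ++ y' ∈ KK := by
      rw [hT]
      exact ⟨_, mem_LL.2 hw', i, hi, f, hf, _, h1.trans hn'⟩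
    exact Good.of_infix ⟨y1, [], by simp⟩ (good_of_KK this)
  have hHk := hH (⟨k, by omega⟩, s, f)
  simp only at hHk
  cases hdp : dp k (some 0) w with
  | none =>
    refine hHk.2 ?_ y2 ⟨w, hdp, n2, h2⟩ hin
    rintro y' ⟨w', hw', n', hn'⟩
    exact hout w' (Or.inr hw') n' y' hn'
  | some e =>
    have hSS : w ∈ SS := by
      rcases hkw with h | h
      · exact h
      · rw [hdp] at h; simp at h
    obtain ⟨j, hj⟩ := hSS
    have hSl := (Sl_of_dp j k 0 e w hj (Nat.zero_le k) hdp).2
    refine hHk.1 ?_ y2 ⟨w, hSl, n2, h2⟩ hin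
    rintro y' ⟨w', hw', n', hn'⟩
    exact hout w' (Or.inl ⟨k, hw'⟩) n' y' hn'

end Pool.Agent.H31.Cone
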