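import Mathlib
import Pool.Agent.H31.Cone.Lin

namespace Pool.Agent.H31.Cone

theorem substitute_assoc {α β γ : Type} (σ : α → Language β) (τ : β → Language γ)
    (L : Language α) :
    substitute τ (substitute σ L) = substitute (fun a => substitute τ (σ a)) L := by
  have key : ∀ (u : List α) (w : List γ), w ∈ (u.map (fun a => substitute τ (σ a))).prod ↔
      ∃ v ∈ (u.map σ).prod, w ∈ (v.map τ).prod := by
    intro u
    induction u with
    | nil =>
      intro w
      simp only [List.map_nil, List.prod_nil, Language.mem_one]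
      constructor
      · rintro rfl
        exact ⟨[], rfl, by simp⟩
      · rintro ⟨v, rfl, h⟩
        simpa using h
    | cons a u ih =>
      intro w
      simp only [List.map_cons, List.prod_cons, Language.mem_mul]
      constructor
      · rintro ⟨w1, ⟨v1, hv1, hw1⟩, w2, hw2, rfl⟩
        obtain ⟨v2, hv2, hw2⟩ := (ih w2).1 hw2
        refine ⟨v1 ++ v2, ⟨v1, hv1, v2, hv2, rfl⟩, ?_⟩
        rw [List.map_append, List.prod_append, Language.mem_mul]
        exact ⟨w1, hw1, w2, hw2, rfl⟩
      · rintro ⟨v, ⟨v1, hv1, v2, hv2, rfl⟩, hw⟩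
        rw [List.map_append, List.prod_append, Language.mem_mul] at hw
        obtain ⟨w1, hw1, w2, hw2, rfl⟩ := hw
        exact ⟨w1, ⟨v1, hv1, hw1⟩, w2, (ih w2).2 ⟨v2, hv2, hw2⟩, rfl⟩
  ext w
  constructor
  · rintro ⟨v, ⟨u, hu, hv⟩, hw⟩
    exact ⟨u, hu, (key u w).2 ⟨v, hv, hw⟩⟩
  · rintro ⟨u, hu, hw⟩
    obtain ⟨v, hv, hw⟩ := (key u w).1 hw
    exact ⟨v, ⟨u, hu, hv⟩, hw⟩

theorem substitute_single {α : Type} (L : Language α) :
    substitute (fun a => ({[a]} : Language α)) L = L := by
  have key : ∀ (u w : List α), w ∈ (u.map (fun a => ({[a]} : Language α))).prod ↔ w = u := by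
    intro u
    induction u with
    | nil => intro w; simp
    | cons a u ih =>
      intro w
      simp only [List.map_cons, List.prod_cons, Language.mem_mul]
      constructor
      · rintro ⟨x, hx, y, hy, rfl⟩
        rw [show x = [a] from hx, (ih y).1 hy]
        rfl
      · rintro rfl
        exact ⟨[a], rfl, u, (ih u).2 rfl, rfl⟩
  ext w
  constructor
  · rintro ⟨u, hu, hw⟩
    rw [(key u w).1 hw]
    exact hu
  · intro hw
    exact ⟨w, hw, (key w w).2 rfl⟩

theorem FL_linear {α β : Type} [Finite α] {M : Language α} (h : IsLinear M)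
    (σ : α → Language β) (hσ : ∀ a, ∃ m, FL m (σ a)) : ∃ m, FL m (substitute σ M) := by
  choose m hm using hσ
  obtain ⟨b, hb⟩ := (Set.finite_range m).bddAbove
  have hσ' : ∀ a, FL b (σ a) := fun a => FL_mono (hb ⟨a, rfl⟩) (hm a)
  obtain ⟨T, rfl⟩ := linear_image h
  obtain ⟨Q, hQ, E, I, F, hT⟩ := exists_normal T
  rw [hT]
  exact ⟨b + 1, FL_subst E I F σ hσ'⟩

theorem FL_Qrt_subst {α : Type} {M : Language α} (h : Qrt M) :
    ∀ (β : Type) (σ : α → Language β), (∀ a, ∃ m, FL m (σ a)) → ∃ m, FL m (substitute σ M) := by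
  induction h with
  | linear hM =>
    intro β σ hσ
    exact FL_linear hM σ hσ
  | substitution _ _ ih1 ih2 =>
    intro β σ hσ
    rw [substitute_assoc]
    exact ih1 _ _ (fun a => ih2 a _ σ hσ)

theorem FL_Qrt {α : Type} {M : Language α} (h : Qrt M) : ∃ m, FL m M := by
  have := FL_Qrt_subst h α (fun a => {[a]}) (fun a => ⟨0, FL_single a⟩)
  rwa [substitute_single] at this

/-! ### Leveled letters and base letters -/

/-- Leveled letters and base letters at the given depths. -/
inductive Cv (m : ℕ) : ℕ → Lt → X → ℕ → Prop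
  | lo (d : ℕ) (b : Bool) : Cv m d (Lt.l (Lb.o b)) (X.o b) d
  | lc (d : ℕ) (b : Bool) : Cv m d (Lt.l (Lb.c b)) (X.c b) d
  | bo {d : ℕ} : d < m → Cv m d (Lt.bo (m - 1 - d)) X.p (d + 1)
  | bc {d : ℕ} : d < m → Cv m (d + 1) (Lt.bc (m - 1 - d)) X.q d

/-- Leveled words and base words. -/
inductive CvW (m : ℕ) : ℕ → List Lt → List X → ℕ → Prop
  | nil (d : ℕ) : CvW m d [] [] d
  | cons {d d' d'' : ℕ} {x : Lt} {y : X} {u : List Lt} {w : List X} :
      Cv m d x y d' → CvW m d' u w d'' → CvW m d (x :: u) (y :: w) d''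

theorem CvW.append {m d d' d'' : ℕ} {u u' : List Lt} {w w' : List X}
    (h : CvW m d u w d') (h' : CvW m d' u' w' d'') : CvW m d (u ++ u') (w ++ w') d'' := by
  induction h with
  | nil => simpa using h'
  | cons he _ ih => exact CvW.cons he (ih h')

theorem CvW.split {m d d' : ℕ} {u : List Lt} {w w1 w2 : List X}
    (h : CvW m d u w d') (hw : w = w1 ++ w2) : ∃ u1 u2 e, u = u1 ++ u2 ∧ CvW m d u1 w1 e ∧
      CvW m e u2 w2 d' := by
  induction h generalizing w1 with
  | nil d =>
    obtain ⟨rfl, rfl⟩ := List.append_eq_nil_iff.1 hw.symm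
    exact ⟨[], [], d, rfl, CvW.nil _, CvW.nil _⟩
  | @cons d d1 d2 x y u w he hp ih =>
    cases w1 with
    | nil =>
      rw [List.nil_append] at hw
      rw [← hw]
      exact ⟨[], x :: u, d, rfl, CvW.nil _, CvW.cons he hp⟩
    | cons y' w1 =>
      simp only [List.cons_append, List.cons.injEq] at hw
      obtain ⟨rfl, hw⟩ := hw
      obtain ⟨u1, u2, e, rfl, h1, h2⟩ := ih hw
      exact ⟨x :: u1, u2, e, rfl, CvW.cons he h1, h2⟩

theorem CvW.head {m d d' : ℕ} {u : List Lt} {y : X} {w : List X}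
    (h : CvW m d u (y :: w) d') : ∃ x u' e, u = x :: u' ∧ Cv m d x y e ∧ CvW m e u' w d' := by
  cases h with
  | cons he hp => exact ⟨_, _, _, rfl, he, hp⟩

theorem CvW.nil_eq {m d d' : ℕ} {u : List Lt} (h : CvW m d u [] d') : u = [] ∧ d' = d := by
  cases h with
  | nil => exact ⟨rfl, rfl⟩

theorem CvW.dp {m d d' : ℕ} {u : List Lt} {w : List X} (h : CvW m d u w d') :
    dp m (some d) w = some d' := by
  induction h with
  | nil => rfl
  | cons he _ ih =>
    rw [dp_cons]
    cases he with
    | lo => simpa using ih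
    | lc => simpa using ih
    | bo hd => rw [sd_p, if_pos hd]; exact ih
    | bc hd => rw [sd_q]; exact ih

theorem Cv.q_inv {m d e : ℕ} {x : Lt} (h : Cv m (d + 1) x X.q e) :
    e = d ∧ x = Lt.bc (m - 1 - d) := by
  generalize hd : d + 1 = d1 at h
  cases h with
  | bc h' =>
    have : e = d := by omega
    subst this
    exact ⟨rfl, rfl⟩

theorem Cv.le {m d e : ℕ} {x : Lt} {y : X} (h : Cv m d x y e) (hd : d ≤ m) : e ≤ m := by
  cases h with
  | lo => exact hd
  | lc => exact hd
  | bo h' => omega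
  | bc h' => omega

theorem Path_head {α β : Type} {T : Transducer α β} {q q' : T.Q} {z : List α} {v : List β}
    (h : T.Path q z v q') : q = q' ∨ ∃ q1 u1 u2 v1 v2, (q, u1, v1, q1) ∈ T.edges ∧
      T.Path q1 u2 v2 q' ∧ z = u1 ++ u2 ∧ v = v1 ++ v2 := by
  induction h with
  | nil q => exact Or.inl rfl
  | cons he hp _ => exact Or.inr ⟨_, _, _, _, _, he, hp, rfl, rfl⟩

theorem toBase (m : ℕ) : ∀ (j d : ℕ), d + j = m → ∀ u ∈ Lv j, ∃ w ∈ Sl j, CvW m d u w d := by
  intro j
  induction j with
  | zero =>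
    intro d _ u hu
    have hu' : SpL 0 ∅ u := hu
    clear hu
    induction hu' with
    | nil => exact ⟨[], Sp.nil, CvW.nil _⟩
    | @lab b u _ ih =>
      obtain ⟨w, hw, h⟩ := ih
      exact ⟨_, Sp.lab b hw, CvW.cons (Cv.lo d b) (h.append (CvW.cons (Cv.lc d b) (CvW.nil _)))⟩
    | left hu _ _ => exact absurd hu (by simp)
    | right _ hu _ => exact absurd hu (by simp)
  | succ j ihj =>
    intro d hd u hu
    have hu' : SpL j (Lv j) u := hu
    clear hu
    have hj : m - 1 - d = j := by omega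
    induction hu' with
    | nil => exact ⟨[], Sp.nil, CvW.nil _⟩
    | @lab b u _ ih =>
      obtain ⟨w, hw, h⟩ := ih
      exact ⟨_, Sp.lab b hw, CvW.cons (Cv.lo d b) (h.append (CvW.cons (Cv.lc d b) (CvW.nil _)))⟩
    | @left u u' hu _ ih =>
      obtain ⟨w, hw, h⟩ := ih
      obtain ⟨w1, hw1, h1⟩ := ihj (d + 1) (by omega) u hu
      have e1 := Cv.bo (m := m) (d := d) (by omega)
      have e2 := Cv.bc (m := m) (d := d) (by omega)
      rw [hj] at e1 e2
      exact ⟨_, Sp.left hw1 hw, CvW.cons e1 (h1.append (CvW.cons e2 h))⟩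
    | @right u u' _ hu ih =>
      obtain ⟨w, hw, h⟩ := ih
      obtain ⟨w1, hw1, h1⟩ := ihj (d + 1) (by omega) u hu
      have e1 := Cv.bo (m := m) (d := d) (by omega)
      have e2 := Cv.bc (m := m) (d := d) (by omega)
      rw [hj] at e1 e2
      exact ⟨_, Sp.right hw hw1,
        h.append (CvW.cons e1 (h1.append (CvW.cons e2 (CvW.nil _))))⟩

theorem lab_inv {m d e : ℕ} {b : Bool} {u : List Lt} {w : List X}
    (h : CvW m d u (X.o b :: (w ++ [X.c b])) e) : ∃ u1, u = Lt.l (Lb.o b) :: (u1 ++ [Lt.l (Lb.c b)]) ∧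
      CvW m d u1 w e := by
  obtain ⟨x, u1, e1, rfl, h1, h2⟩ := h.head
  cases h1 with
  | lo =>
    obtain ⟨u2, u3, e2, rfl, h3, h4⟩ := h2.split rfl
    obtain ⟨x, u4, e3, rfl, h5, h6⟩ := h4.head
    cases h5 with
    | lc =>
      obtain ⟨rfl, rfl⟩ := h6.nil_eq
      exact ⟨u2, rfl, h3⟩

theorem ofBase (m : ℕ) : ∀ (j d : ℕ), d + j = m → ∀ (u : List Lt) (w : List X) (e : ℕ),
    w ∈ Sl j → CvW m d u w e → e = d ∧ u ∈ Lv j := by
  intro j
  induction j with
  | zero =>
    intro d _ u w e hw h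
    have hw' : Sp ∅ w := hw
    clear hw
    induction hw' generalizing u e with
    | nil =>
      obtain ⟨rfl, rfl⟩ := h.nil_eq
      exact ⟨rfl, SpL.nil⟩
    | lab b _ ih =>
      obtain ⟨u1, rfl, h1⟩ := lab_inv h
      obtain ⟨rfl, h2⟩ := ih _ _ h1
      exact ⟨rfl, SpL.lab b h2⟩
    | left hu _ _ => exact absurd hu (by simp)
    | right _ hu _ => exact absurd hu (by simp)
  | succ j ihj =>
    intro d hd u w e hw h
    have hw' : Sp (Sl j) w := hw
    clear hw
    have hj : m - 1 - d = j := by omega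
    induction hw' generalizing u e with
    | nil =>
      obtain ⟨rfl, rfl⟩ := h.nil_eq
      exact ⟨rfl, SpL.nil⟩
    | lab b _ ih =>
      obtain ⟨u1, rfl, h1⟩ := lab_inv h
      obtain ⟨rfl, h2⟩ := ih _ _ h1
      exact ⟨rfl, SpL.lab b h2⟩
    | @left w1 w2 hw1 _ ih =>
      obtain ⟨x, u1, e1, rfl, h1, h2⟩ := h.head
      cases h1 with
      | bo hdm =>
        obtain ⟨u2, u3, e2, rfl, h3, h4⟩ := h2.split rfl
        obtain ⟨rfl, h5⟩ := ihj (d + 1) (by omega) _ _ _ hw1 h3
        obtain ⟨x, u4, e3, rfl, h6, h7⟩ := h4.head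
        obtain ⟨rfl, rfl⟩ := h6.q_inv
        obtain ⟨rfl, h8⟩ := ih _ _ h7
        rw [hj]
        exact ⟨rfl, SpL.left h5 h8⟩
    | @right w1 w2 _ hw1 ih =>
      obtain ⟨u1, u2, e1, rfl, h1, h2⟩ := h.split rfl
      obtain ⟨rfl, h3⟩ := ih _ _ h1
      obtain ⟨x, u3, e2, rfl, h4, h5⟩ := h2.head
      cases h4 with
      | bo hdm =>
        obtain ⟨u4, u5, e3, rfl, h6, h7⟩ := h5.split rfl
        obtain ⟨rfl, h8⟩ := ihj _ (by omega) _ _ _ hw1 h6
        obtain ⟨x, u6, e4, rfl, h9, h10⟩ := h7.head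
        obtain ⟨rfl, rfl⟩ := h9.q_inv
        obtain ⟨rfl, rfl⟩ := h10.nil_eq
        rw [hj]
        exact ⟨rfl, SpL.right h3 h8⟩

/-! ### The final transducer -/

section Fin

variable {β Q : Type} (m : ℕ) (E : Q → Option Lt → Option β → Q → Prop) (I : Set Q)

/-- Edges of the final transducer. -/
inductive TE : Option (Q × Fin (m + 1)) × List (Option X) × List β ×
    Option (Q × Fin (m + 1)) → Prop
  | st {i : Q} : i ∈ I → TE (none, List.replicate m none, [], some (i, 0))
  | ep {q q' : Q} {b : Option β} (d : Fin (m + 1)) : E q none b q' →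
      TE (some (q, d), [], b.toList, some (q', d))
  | rd {q q' : Q} {b : Option β} {d d' : Fin (m + 1)} {x : Lt} {y : X} : E q (some x) b q' →
      Cv m d x y d' → TE (some (q, d), [some y], b.toList, some (q', d'))

/-- The final transducer. -/
def finT [Finite β] [Finite Q] (F : Set Q) : Transducer (Option X) β where
  Q := Option (Q × Fin (m + 1))
  finQ := inferInstance
  edges := {e | TE m E I e}
  finEdges := by
    have h1 : ((Set.univ : Set (Option (Q × Fin (m + 1)))) ×ˢ
        ({u : List (Option X) | u.length ≤ m + 1} ×ˢ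
        ({v : List β | v.length ≤ 1} ×ˢ
          (Set.univ : Set (Option (Q × Fin (m + 1))))))).Finite := by
      have h2 : (Set.univ : Set (Option (Q × Fin (m + 1)))).Finite := Set.toFinite _
      exact h2.prod ((List.finite_length_le _ _).prod ((List.finite_length_le _ _).prod h2))
    refine h1.subset ?_
    intro e he
    cases he with
    | st hi => simp
    | @ep q q' b d h => cases b <;> simp
    | @rd q q' b d d' x y h h' => cases b <;> simp
  init := {none}
  final := {q | ∃ f ∈ F, ∃ d, q = some (f, d)}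

variable {m E I} [Finite β] [Finite Q] {F : Set Q}

theorem finT_up {n : ℕ} {q q' : Q} {u : List Lt} {v : List β} (h : NP E n q u v q') :
    ∀ {d e : Fin (m + 1)} {w : List X}, CvW m d u w e →
      (finT m E I F).Path (some (q, d)) (w.map some) v (some (q', e)) := by
  induction h with
  | nil q =>
    intro d e w h
    generalize hd : (d : ℕ) = d0 at h
    generalize he : (e : ℕ) = e0 at h
    cases h with
    | nil =>
      obtain rfl : d = e := Fin.ext (by omega)
      exact Transducer.Path.nil (T := finT m E I F) _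
  | @cons n q q1 q2 a b u v he _ ih =>
    intro d e w hw
    cases a with
    | none =>
      have := Transducer.Path.cons (T := finT m E I F) (TE.ep (I := I) d he) (ih hw)
      simpa using this
    | some x =>
      simp only [Option.toList_some, List.cons_append, List.nil_append] at hw
      cases hw with
      | @cons _ d1 _ _ y _ w hc hw =>
        have hd1 : d1 < m + 1 := by
          have := hc.le (by omega)
          omega
        have := Transducer.Path.cons (T := finT m E I F)
          (TE.rd (I := I) (d := d) (d' := ⟨d1, hd1⟩) he hc) (ih (d := ⟨d1, hd1⟩) hw)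
        simpa using this

theorem finT_down {q q' : (finT m E I F).Q} {z : List (Option X)} {v : List β}
    (h : (finT m E I F).Path q z v q') : ∀ q1 d, q = some (q1, d) → ∃ q2 e w u n,
      q' = some (q2, e) ∧ z = w.map some ∧ NP E n q1 u v q2 ∧ CvW m d u w e := by
  induction h with
  | nil q =>
    rintro q1 d rfl
    exact ⟨q1, d, [], [], 0, rfl, rfl, NP.nil _, CvW.nil _⟩
  | @cons q q' q'' z z' v v' he _ ih =>
    rintro q1 d rfl
    have he' : TE m E I _ := he
    cases he' with
    | @ep _ q2 b _ hE =>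
      obtain ⟨q3, e, w, u, n, h1, h2, h3, h4⟩ := ih _ _ rfl
      refine ⟨q3, e, w, u, n + 1, h1, by simpa using h2, ?_, h4⟩
      simpa using NP.cons hE h3
    | @rd _ q2 b _ d' x y hE hc =>
      obtain ⟨q3, e, w, u, n, h1, h2, h3, h4⟩ := ih _ _ rfl
      refine ⟨q3, e, y :: w, x :: u, n + 1, h1, by simp [h2], ?_, CvW.cons hc h4⟩
      simpa using NP.cons hE h3

end Fin

theorem FL.inCone {β : Type} [Finite β] {m : ℕ} {K : Language β} (h : FL m K) :
    InCone LL K := by
  obtain ⟨Q, hQ, E, I, F, rfl⟩ := h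
  refine ⟨finT m E I F, ?_⟩
  ext v
  constructor
  · rintro ⟨u, hu, i, hi, f, hf, n, hn⟩
    obtain ⟨w, hw, hc⟩ := toBase m m 0 (by omega) u hu
    refine ⟨List.replicate m none ++ w.map some, mem_LL.2 (Or.inl ⟨m, hw⟩), none, rfl,
      some (f, 0), ⟨f, hf, 0, rfl⟩, ?_⟩
    have h1 := finT_up (m := m) (I := I) (F := F) hn (d := 0) (e := 0) (by simpa using hc)
    have h2 := Transducer.Path.cons (T := finT m E I F) (TE.st (E := E) hi) h1
    simpa using h2
  · rintro ⟨z, hz, q0, hq0, _, ⟨f, hf, d, rfl⟩, hp⟩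
    have hq0' : q0 = none := hq0
    subst hq0'
    rcases Path_head hp with hp | ⟨q3, z1, z2, v1, v2, he, hp, rfl, rfl⟩
    · exact absurd (hp : (none : Option (Q × Fin (m + 1))) = some (f, d)) (by simp)
    · have he' : TE m E I _ := he
      cases he' with
      | @st i hi =>
        obtain ⟨f', d', w, u, n, h1, h2, h3, h4⟩ := finT_down hp _ _ rfl
        have h5 : (f, d) = (f', d') := Option.some.inj h1
        simp only [Prod.mk.injEq] at h5
        obtain ⟨rfl, rfl⟩ := h5
        subst h2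
        have h6 := mem_LL.1 hz
        have h7 := h4.dp
        rcases h6 with ⟨j, hj⟩ | h6
        · obtain ⟨_, h8⟩ := Sl_of_dp j m 0 d w hj (Nat.zero_le _) (by simpa using h7)
          obtain ⟨_, h9⟩ := ofBase m m 0 (by omega) u w d (by simpa using h8) (by simpa using h4)
          exact ⟨u, h9, i, hi, f, hf, n, by simpa using h3⟩
        · exfalso
          rw [Fin.val_zero] at h7
          rw [h6] at h7
          simp at h7

/-- Every quasi-rational language belongs to the cone generated by `L`. -/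
theorem Qrt_inCone {α : Type} [Finite α] {K : Language α} (h : Qrt K) : InCone LL K := by
  obtain ⟨m, hm⟩ := FL_Qrt h
  exact hm.inCone

end Pool.Agent.H31.Cone
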